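import Pool.Agent.Helper15.RA.Basic

/-!
# Project RA (MP_cc6379_al): goals, part 1. Generalities on Hecke algebras, the ring `J`, normal forms, cliques.

Conventions: `ξ_i = xi (L s_i) = v^(L s_i) - v^(-L s_i)`, `τ(Z)` = the coefficient of `T_1` in `Z`, i.e.
`D.t.repr Z 1`; `ℓ = cs.length`. `DegLE k p` is `deg p ≤ k`. Elementary lemmas on `DegLE`, `Lam`, `LamT` are in
`Basic.lean`.
-/

set_option autoImplicit false

open LaurentPolynomial

noncomputable section

namespace Pool.Agent.Helper15.RA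

/-! ## H: generalities (any Coxeter group, any weight function) -/

/-- PACKET RA-H1 (1.5 h). Multiplication by simple reflections, supports, `τ(T_x T_y) = δ_(xy,1)`.

PROOF. `T_1 T_w = T_w` by `mul`, so `T_1 Z = Z` for all `Z` and `T_1 = T_1 1 = 1`. `quad` gives `T_s^2 = ξ_s T_s + 1`
(`T` is multiplicative: `T_add`, and commutes with everything, being a scalar). If `ℓ(s w) + 1 = ℓ(w)` then
`T_w = T_s T_(s w)` and `T_s T_w = T_s^2 T_(s w) = ξ_s T_w + T_(s w)`; same on the right.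
Support: induction on `ℓ(x)`, `x = s x'` reduced: `T_x T_y = T_s (T_(x') T_y)` and `T_s T_z` is a combination of
`T_z`, `T_(s z)`, `ℓ(s z) ≤ ℓ(z) + 1`.
`τ`: induction on `ℓ(x)` for all `y`; `x = 1` clear; `x = x' s` reduced, `T_x T_y = T_(x') (T_s T_y)`. If `s y > y`:
`T_s T_y = T_(s y)`, and `x' s y = x y`. If `s y < y`: `τ = ξ_s τ(T_(x') T_y) + τ(T_(x') T_(s y))`; `x' y = 1` is
impossible: then `y = x'⁻¹`, `ℓ(s y) = ℓ(y⁻¹ s) = ℓ(x' s) > ℓ(x') = ℓ(y)`; and `x' s y = x y`. -/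
def H_1 : Prop := ∀ (I W H : Type) [Group W] [Ring H] [Algebra ℤ[T;T⁻¹] H] (M : CoxeterMatrix I)
    (cs : CoxeterSystem M W) (L : W → ℕ) (D : Hecke0 cs L H),
  D.t 1 = 1 ∧
  (∀ i w, cs.length (cs.simple i * w) = cs.length w + 1 →
    D.t (cs.simple i) * D.t w = D.t (cs.simple i * w)) ∧
  (∀ i w, cs.length (cs.simple i * w) + 1 = cs.length w →
    D.t (cs.simple i) * D.t w = xi (L (cs.simple i)) • D.t w + D.t (cs.simple i * w)) ∧
  (∀ i w, cs.length (w * cs.simple i) = cs.length w + 1 →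
    D.t w * D.t (cs.simple i) = D.t (w * cs.simple i)) ∧
  (∀ i w, cs.length (w * cs.simple i) + 1 = cs.length w →
    D.t w * D.t (cs.simple i) = xi (L (cs.simple i)) • D.t w + D.t (w * cs.simple i)) ∧
  (∀ x y z, D.t.repr (D.t x * D.t y) z ≠ 0 → cs.length z ≤ cs.length x + cs.length y) ∧
  (∀ x y, x * y = 1 → D.t.repr (D.t x * D.t y) 1 = 1) ∧
  (∀ x y, x * y ≠ 1 → D.t.repr (D.t x * D.t y) 1 = 0)

/-- PACKET RA-H2 (2 h). From `H_1`. The bar map is semilinear and unitriangular; `c_w` is unitriangular; uniqueness of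
`c_w`; `c_1`, `c_s`.

PROOF. Semilinear: `bar_t` for `w = 1` (`T_1 = 1`): `bar (v^n • 1) = v^(-n) • 1`; with additivity
`bar (p • 1) = invert p • 1` (`LaurentPolynomial.induction_on'`, integers go to integers), and `p • Z = (p • 1) * Z`.
`bar T_w`: `T_s (T_s - ξ_s) = 1`, so `bar T_s = T_s - ξ_s` (`bar_t` with `n = 0`, `w = s`). Induction on `ℓ(w)`,
`w = s w'` reduced: `bar T_w = (T_s - ξ_s) bar T_(w')`, `bar T_(w') = T_(w') + (shorter)`, and `T_s T_y`, `T_y` have support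
in lengths `≤ ℓ(y) + 1`; the coefficient of `T_w` is `1` (only `T_s T_(w')` contributes in length `ℓ(w)`).
`c_w`: let `p_y = repr (c_w) y`; by `c_sub` `deg (p_w - 1) ≤ -1` and `deg p_y ≤ -1` for `y ≠ w`. Let `y₀` have maximal length in
`{y | p_y ≠ 0}`. The coefficient of `T_(y₀)` in `bar c_w = ∑ invert (p_y) bar T_y` is `invert p_(y₀)`, so
`p_(y₀) = invert p_(y₀)`. If `y₀ ≠ w` then `p_(y₀) = 0` (`eq_zero_of_invert`), contradiction. So `w` is the only element of
maximal length in the support, and `p_w - 1` is `0` by the same lemma (the support is not empty as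
`deg (0 - 1) ≤ -1` is false).
Uniqueness: the same argument for `Z = Y - c_w`: `bar Z = Z`, all coefficients of degree `≤ -1`, so `Z = 0`.
`c_1 = 1`, `c_s = T_s + v^(-L s)` by uniqueness (`bar (T_s + v^(-L)) = T_s - v^L + v^(-L) + v^L`), `L(s) ≥ 1` by `IsWeight`. Then
`c_s^2 = (v^(L s) + v^(-L s)) c_s` from `quad`. -/
def H_2 : Prop := ∀ (I W H : Type) [Group W] [Ring H] [Algebra ℤ[T;T⁻¹] H] (M : CoxeterMatrix I)
    (cs : CoxeterSystem M W) (L : W → ℕ), IsWeight cs L → ∀ (D : Hecke cs L H),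
  (∀ (p : ℤ[T;T⁻¹]) (Z : H), D.bar (p • Z) = invert p • D.bar Z) ∧
  (∀ w, D.t.repr (D.bar (D.t w)) w = 1) ∧
  (∀ w y, D.t.repr (D.bar (D.t w)) y ≠ 0 → y = w ∨ cs.length y < cs.length w) ∧
  (∀ w, D.t.repr (D.c w) w = 1) ∧
  (∀ w y, D.t.repr (D.c w) y ≠ 0 → y = w ∨ cs.length y < cs.length w) ∧
  (∀ w y, y ≠ w → DegLE (-1) (D.t.repr (D.c w) y)) ∧
  (∀ w Z, D.bar Z = Z → (∀ y, DegLE (-1) (D.t.repr (Z - D.t w) y)) → Z = D.c w) ∧
  D.c 1 = 1 ∧
  (∀ i, D.c (cs.simple i) = D.t (cs.simple i) + (T (-(L (cs.simple i) : ℤ)) : ℤ[T;T⁻¹]) • 1) ∧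
  (∀ i, D.c (cs.simple i) * D.c (cs.simple i) = dl (L (cs.simple i)) • D.c (cs.simple i))

/-- PACKET RA-H3 (2 h). From `H_2`. The `c_w` are a basis; `T_w` in terms of the `c_y`; existence and uniqueness of `h`;
(B) bounds `h`.

PROOF. Basis: linear independence: in a relation `∑ a_w c_w = 0` take `w` of maximal length with `a_w ≠ 0`; the coefficient of `T_w`
is `a_w`. Spanning and the formula for `T_w`: strong induction on `ℓ(w)`: `T_w = c_w - ∑_(ℓ(y) < ℓ(w)) p_y T_y`, `deg p_y ≤ -1`,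
and `T_y` is by induction a combination of `c_z`, `ℓ(z) ≤ ℓ(y)`, with coefficients of degree `≤ 0`.
`h`: `h x y := b.repr (c_x c_y)`.
(B): let `deg f_(x,y,z) ≤ N` for all `x y z`. Then all `T`-coordinates of `c_x c_y` have degree `≤ N` (the `T`-coordinates of `c_x` have
degree `≤ 0`), and so have the `c`-coordinates, because the `c`-coordinates of all `T_w` have degree `≤ 0`. -/
def H_3 : Prop := ∀ (I W H : Type) [Group W] [Ring H] [Algebra ℤ[T;T⁻¹] H] (M : CoxeterMatrix I)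
    (cs : CoxeterSystem M W) (L : W → ℕ), IsWeight cs L → ∀ (D : Hecke cs L H),
  (∃ b : Module.Basis W ℤ[T;T⁻¹] H, (∀ w, b w = D.c w) ∧ (∀ w, b.repr (D.t w) w = 1) ∧
    ∀ w y, y ≠ w → DegLE (-1) (b.repr (D.t w) y) ∧ (b.repr (D.t w) y ≠ 0 → cs.length y < cs.length w)) ∧
  (∃ h, D.IsH h) ∧ (∀ h h', D.IsH h → D.IsH h' → h = h') ∧
  (∀ (h : W → W → W →₀ ℤ[T;T⁻¹]) (N : ℕ), D.IsH h → (∀ x y z, DegLE N (D.t.repr (D.t x * D.t y) z)) →
    ∀ x y z, DegLE N (h x y z)) ∧
  (∀ h a a', D.IsH h → IsA h a → IsA h a' → a = a')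

/-- PACKET RA-HJ (2 h). From `H_3` (only: the `c_w` are linearly independent). P4 and P8 make `J` associative.

PROOF. `(c_x c_y) c_w = c_x (c_y c_w)` gives `∑_z h_(x,y,z) h_(z,w,u) = ∑_z h_(y,w,z) h_(x,z,u)` for all `x y w u`. Take the
coefficient of `v^(2 a(u))`. Left: for `h_(z,w,u) ≠ 0`: `a(z) ≤ a(u)` by `p4`, `deg h_(x,y,z) ≤ a(z) ≤ a(u)`,
`deg h_(z,w,u) ≤ a(u)`, so the coefficient of `v^(2 a(u))` of the product is the product of the coefficients of `v^(a(u))`
(`coeff_mul_top`), and if the coefficient `γ_(z,w,u⁻¹)` is not `0` then `a(z) = a(u)` by `p8`, so the other one is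
`γ_(x,y,z⁻¹)`. So the coefficient is `∑_z γ_(x,y,z⁻¹) γ_(z,w,u⁻¹)`. Right: for `h_(x,z,u) ≠ 0`: `a(z) ≤ a(u)`, the same argument gives
`∑_z γ_(y,w,z⁻¹) γ_(x,z,u⁻¹)`. This is the associativity for basis elements; `jmul` is additive in both
arguments (sums over supports of `h`: terms outside the support are `0`). -/
def H_J : Prop := ∀ (I W H : Type) [Group W] [Ring H] [Algebra ℤ[T;T⁻¹] H] (M : CoxeterMatrix I)
    (cs : CoxeterSystem M W) (L : W → ℕ), IsWeight cs L → ∀ (D : Hecke cs L H)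
    (h : W → W → W →₀ ℤ[T;T⁻¹]) (a : W → ℕ), Good D h a → JAssoc h a

/-- PACKET RA-HV (1.5 h). From `H_1`, `H_2`. The anti-automorphism `T_w ↦ T_(w⁻¹)`; it fixes `c`.

PROOF. Let `F` be the `ℤ[v,v⁻¹]`-linear map with `F(T_w) = T_(w⁻¹)`. `F(T_s T_w) = F(T_w) F(T_s)` and from this
`F(T_x Y) = F(Y) F(T_x)` by induction on `ℓ(x)` (`H_1`; `ℓ(w⁻¹) = ℓ(w)`, `L(s)` only depends on `s`). `F(bar Z) = bar (F Z)`: both are
semilinear; on `T_w`: `bar T_w` is the inverse of `T_(w⁻¹)`, `F` maps it to the inverse of `T_w`, which is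
`bar (T_(w⁻¹)) = bar (F T_w)`. By uniqueness (`H_2`) `F(c_w) = c_(w⁻¹)`: `bar F(c_w) = F(c_w)` and the coordinates of
`F(c_w) - T_(w⁻¹) = F(c_w - T_w)` have degree `≤ -1`. The last statement by applying `F` to `c_x c_y = ∑ h c_z` and `H_3`-type
uniqueness (you may assume `H_3`). -/
def H_V : Prop := ∀ (I W H : Type) [Group W] [Ring H] [Algebra ℤ[T;T⁻¹] H] (M : CoxeterMatrix I)
    (cs : CoxeterSystem M W) (L : W → ℕ), IsWeight cs L → ∀ (D : Hecke cs L H),
  (∃ F : H →ₗ[ℤ[T;T⁻¹]] H, (∀ w, F (D.t w) = D.t w⁻¹) ∧ (∀ Y Z, F (Y * Z) = F Z * F Y) ∧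
    (∀ w, F (D.c w) = D.c w⁻¹)) ∧
  (∀ w y, D.t.repr (D.c w⁻¹) y⁻¹ = D.t.repr (D.c w) y) ∧
  ∀ h, D.IsH h → ∀ x y z, h x y z = h y⁻¹ x⁻¹ z⁻¹

/-! ## N: normal forms in graph products -/

/-- PACKET RA-NF (3.5 h). The normal form theorem for graph products, in the form of an action on a set `Y` (the reduced
syllable lists modulo shuffles).

PROOF. Syllable lists `ω : List (Σ v, G v)` with all entries `≠ 1`. `avail v ω : Option (G v)`: `avail v [] = none`,
`avail v ((u,g)::ω) = some g` if `u = v`, `avail v ω` if `u`, `v` adjacent, `none` otherwise. `rem v ω` removes this syllable (if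
there is one). `Red ω`: for every suffix `(v,g)::ω'` of `ω`: `g ≠ 1` and `avail v ω' = none`.
`act v g ω := if avail v ω = none then (if g = 1 then ω else (v,g)::ω) else, with avail v ω = some k: (if g k = 1 then
rem v ω else (v, g k)::rem v ω)`.
Call `u,v` dependent if `u = v` or `u`, `v` are not adjacent. For dependent `u, v` let `proj u v ω` be the list of the entries of
`ω` with vertex in `{u,v}`. `ω ≈ ω'` iff all `proj u v` (`u,v` dependent) agree. `Y` := reduced lists modulo `≈` (or the set of the families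
of projections of reduced lists), `e := []`, `len := ` length (invariant: `ω ≈ ω'` implies `ω.Perm ω'`, count each syllable in
`proj v v`).
(i) If `avail v ω = some k`: `proj u w (rem v ω) = proj u w ω` for `v ∉ {u,w}`, and `proj u w ω = (v,k)::proj u w (rem v ω)` for dependent
`u,w` with `v ∈ {u,w}` (the entries before the available syllable have vertices adjacent to `v`).
(ii) `avail v ω = some k` iff `proj u v ω` starts with `(v,k)` for all `u` dependent on `v` (including `u = v`). So `avail` and `act` respect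
`≈`, and so does `Red`-ness of the results: (iii) for `u`, `v` adjacent `avail u ω = avail u (rem v ω) = avail u ((v,g)::ω)`; for `Red ω`,
`avail v ω = some k`: `Red (rem v ω)`, `avail v (rem v ω) = none`; `Red (act v g ω)`.
(iv) `act v 1 ω ≈ ω`, `act v g (act v h ω) ≈ act v (g h) ω` by cases. (v) `u`, `v` adjacent: `act u g (act v h ω) ≈ act v h (act u g ω)`: compare
`proj p q`, `p,q` dependent: it contains at most one of `u, v`; if `u ∉ {p,q}` then `proj p q (act u g ω') = proj p q ω'` for all `ω'`, and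
`proj p q (act v h ω')` depends only on `avail v ω'` and `proj p q ω'`.
(vi) coset: `avail v ω = none`: take `g = 1`; `avail v ω = some k`: take `g = k⁻¹`. `len (act v g ω) + 1 = len ω` iff
`avail v ω = some g⁻¹` (`g ≠ 1`). (vii) `ω ≠ []`: the head `(v,g)`: `act v g⁻¹ ω = tail`. (viii) diamond: `avail u ω = some g⁻¹`,
`avail v ω = some h⁻¹`; if `u, v` were dependent, `proj u v ω` would start with both. So they are adjacent, and
`avail v (rem u ω) = avail v ω`. (ix) `ψ(ω) := ∏ f v g` over the entries. `ω ≈ ω'` (both reduced) implies `ψ ω = ψ ω'`: induction on the length: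
`ω = (v,g)::ω₁`; `avail v ω' = some g`, `ω' ≈ (v,g)::rem v ω'`, `ω₁ ≈ rem v ω'` (cancel the heads of the projections), and
`ψ ω' = f v g * ψ (rem v ω')` because `f v g` commutes with the factors before it. If `len (act v g ω) = len ω + 1` then
`act v g ω = (v,g)::ω`. -/
def N_NF : Prop := ∀ (V : Type) (Γ : SimpleGraph V) (G : V → Type) [∀ v, Group (G v)],
  ∃ (Y : Type) (e : Y) (act : ∀ v, G v → Y → Y) (len : Y → ℕ),
    (∀ v y, act v 1 y = y) ∧ (∀ v g h y, act v (g * h) y = act v g (act v h y)) ∧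
    (∀ u v, Γ.Adj u v → ∀ g h y, act u g (act v h y) = act v h (act u g y)) ∧
    len e = 0 ∧ (∀ y, y ≠ e → ∃ v g, g ≠ 1 ∧ len (act v g⁻¹ y) + 1 = len y) ∧
    (∀ v y, ∃ g, ∀ h, h ≠ 1 → len (act v h (act v g y)) = len (act v g y) + 1) ∧
    (∀ u v, u ≠ v → ∀ g h y, len (act u g y) + 1 = len y → len (act v h y) + 1 = len y →
      Γ.Adj u v ∧ len (act v h (act u g y)) + 2 = len y) ∧
    (∀ (N : Type) [Monoid N] (f : ∀ v, G v → N),
      (∀ u v, Γ.Adj u v → ∀ g h, f u g * f v h = f v h * f u g) →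
      ∃ ψ : Y → N, ψ e = 1 ∧ ∀ v g y, g ≠ 1 → len (act v g y) = len y + 1 → ψ (act v g y) = f v g * ψ y)

/-- PACKET RA-NI (1.5 h). The homomorphisms `iota` are injective and preserve the length; weights restrict.

PROOF. `r : W → (sub M π v).Group` with `r(s_i) = s_i` if `π i = v` and `1` otherwise: liftable (`cs.lift`): `(r s_i r s_j)^(M i j) = 1`:
both in the block: the relation of the block; one in the block: then `π i ≠ π j`, `M i j ∈ {0, 2}` by `IsGraphProd`, and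
`(s 1)^2 = 1`; none: clear. `r ∘ iota = id` (agree on generators: `ext_simple`). `ℓ(iota g) ≤ ℓ_v(g)` (write `g` as a word) and
`ℓ_v(r w) ≤ ℓ(w)`, so `ℓ_v(g) = ℓ_v(r (iota g)) ≤ ℓ(iota g)`. Weight: `g ≠ 1 → iota g ≠ 1`, lengths are preserved. -/
def N_I : Prop := ∀ (I V W : Type) [Group W] (M : CoxeterMatrix I) (cs : CoxeterSystem M W) (π : I → V)
    (Γ : SimpleGraph V), IsGraphProd M π Γ → ∀ v : V,
  (∀ g, cs.length (iota cs π v g) = (sub M π v).toCoxeterSystem.length g) ∧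
  Function.Injective (iota cs π v) ∧
  ∀ L, IsWeight cs L → IsWeight (sub M π v).toCoxeterSystem fun g => L (iota cs π v g)

/-- PACKET RA-NG (3 h). From `N_NF`, `N_I`. A Coxeter group which is a graph product has the structure `GP`.

PROOF. Apply `N_NF` to `Γ` and the groups `(sub M π v).Group`: `Y, e, act, len`. For `i : I` let `ρ i : Equiv.Perm Y` be `act (π i) s_i`
(`s_i` the generator of the block of `π i`). Liftable: `(ρ i ρ j)^(M i j) = 1`: same block: the relation in the group of the block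
(`act v` is a homomorphism to `Equiv.Perm Y`); different blocks, adjacent: `M i j = 2` and the two commuting involutions
`ρ i`, `ρ j`; not adjacent: `M i j = 0`. So there is `R : W →* Equiv.Perm Y`, `R s_i = ρ i`, and `R (iota v g) = act v g` (agree on
generators). Put `sl w := len (R w e)`.
`ψ : Y → W` from the last clause of `N_NF`, `f v g = iota v g` (these commute for adjacent `u, v`: generators `s_i`, `s_j` commute as `M i j = 2`;
closure induction / `ext`): `ψ e = 1`, and `ψ (act v g y) = iota v g * ψ y` for ALL `g, y`: let `y₀ = act v k y` be minimal (coset), then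
`y = act v k⁻¹ y₀`, `act v g y = act v (g k⁻¹) y₀`, use the property at `y₀` for `k⁻¹` and `g k⁻¹` (the case `= 1` trivial). Hence
`ψ (R w y) = w * ψ y` (simple induction) and `ψ (R w e) = w`: so `R w e = e` implies `w = 1`.
Fields of `GP` with `G v = (iota cs π v).range`: `comm` above. `gen`: `w ≠ 1`, `y = R w e ≠ e`, use the `len` clause. `one`: `len e = 0`.
`coset`, `dia`: from `N_NF` with `y = R w e`. `syl`: `g ≠ 1` in the block group (`iota` of it `≠ 1`): `len (act v g e) = 1` by coset at `e` (the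
minimal element of the orbit of `e` is `e` itself: `len e = 0`, and if `act v k e` is minimal with `k ≠ 1` then
`len e = len (act v k⁻¹ (act v k e)) = len (..) + 1 > 0`). `disj`: `x = iota u g = iota v g' ≠ 1`: `y = R x e`, `len y = 1`,
`act u g⁻¹ y = e = act v g'⁻¹ y`, diamond: `len (..) + 2 = 1`, impossible. `mul`, `inv`: `sl w` is the least `r` such that `w` is a product of
`r` elements of the `G v`: `len (act v g y) ≤ len y + 1` by coset, and `gen` gives such a factorization with `sl w` factors.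
`recur`: `f : W → N`; `N_NF` with `f v g := f (iota v g)` gives `ψ`; `C w := ψ (R w e)`. -/
def N_G : Prop := ∀ (I V W : Type) [Group W] (M : CoxeterMatrix I) (cs : CoxeterSystem M W) (π : I → V)
    (Γ : SimpleGraph V), IsGraphProd M π Γ → ∃ sl, GP Γ (fun v => (iota cs π v).range) sl

/-- PACKET RA-EC (1 h). Multiplicativity of functions defined by recursion on syllables.

PROOF. First: `C g = C (g * 1) = f g * C 1` as `sl g = 1 = sl 1 + 1`. Second: induction on `sl x` (`gen`): `x = g x'`, `g ∈ G v`, `g ≠ 1`,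
`sl x = sl x' + 1`; `sl (x' y) = sl x' + sl y` and `sl (g (x' y)) = sl (x' y) + 1` follow from `sl (x y) = sl x + sl y` and
subadditivity. -/
def E_C : Prop := ∀ (V W : Type) [Group W] (Γ : SimpleGraph V) (G : V → Subgroup W) (sl : W → ℕ),
  GP Γ G sl → ∀ (N : Type) [Monoid N] (f C : W → N), C 1 = 1 →
    (∀ v, ∀ g ∈ G v, g ≠ 1 → ∀ w, sl (g * w) = sl w + 1 → C (g * w) = f g * C w) →
    (∀ v, ∀ g ∈ G v, g ≠ 1 → C g = f g) ∧ ∀ x y, sl (x * y) = sl x + sl y → C (x * y) = C x * C y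

/-- PACKET RA-NL (1 h). From `E_C`. The Coxeter length is additive when the syllable length is.

PROOF. `recur` with `N = Multiplicative ℕ`, `f = ofAdd ∘ ℓ`: `N : W → ℕ`, `N(x y) = N(x) + N(y)` if `sl` is additive, `N(g) = ℓ(g)` on `G v`
(`E_C`). Claim `N = ℓ`. `ℓ ≤ N`: induction on `sl` (`gen`). `N ≤ ℓ`: `N(s_i w) ≤ N(w) + 1`: let `v = π i`, `w = g w'`, `g ∈ G v`, `w'`
minimal in its coset (`coset`): `N(w) = ℓ(g) + N(w')` and `N(s_i w) = ℓ(s_i g) + N(w')` (also for `g = 1` or `s_i g = 1`). So `N(w) ≤ ℓ(w)`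
by induction on `ℓ(w)`. -/
def N_L : Prop := ∀ (I V W : Type) [Group W] (M : CoxeterMatrix I) (cs : CoxeterSystem M W) (π : I → V)
    (Γ : SimpleGraph V) (sl : W → ℕ), GP Γ (fun v => (iota cs π v).range) sl →
  ∀ x y, sl (x * y) = sl x + sl y → cs.length (x * y) = cs.length x + cs.length y

/-! ## E: combinatorics of cliques

`x . y` is reduced: `sl (x * y) = sl x + sl y`. Everything here has a left and a right form; they are exchanged by
`w ↦ w⁻¹`. -/

/-- PACKET RA-E0 (2 h). The basic exchange lemma. `u` is a right descent vertex of `x w` (with last syllable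
`g⁻¹`), but not of `w`.

PROOF. Induction on `sl w`. `w = 1`: (i) trivial, (ii) is the hypothesis, (iii) `sl 1 = 0` excludes it. `w ≠ 1`: by `gen` for `w⁻¹` and `inv`: `w = w' b`,
`b ∈ G v`, `b ≠ 1`, `sl w = sl w' + 1`. `v ≠ u`: otherwise `sl (w b⁻¹) = sl w - 1` contradicts the hypothesis on `w` (`h = b⁻¹`). Both
`sl (x w g) + 1 = sl (x w)` and `sl (x w b⁻¹) + 1 = sl (x w)` (`sl (x w') = sl x + sl w'` since `sl (x w) = sl (x w' b) ≤ sl (x w') + 1`). The
diamond (for the inverses) gives: `u`, `v` adjacent, `sl (x w b⁻¹ g) + 2 = sl (x w)`, i.e. `sl (x w' g) + 1 = sl (x w')`. `u` is not a descent of `w'`: if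
`h ∈ G u`, `h ≠ 1`, `sl (w' h) ≠ sl w' + 1` then by `coset` some `k ∈ G u`, `k ≠ 1`, has `sl (w' k) + 1 = sl w'`, and
`sl (w k) = sl (w' k b) ≤ sl w' - 1 + 1 < sl w`, while `sl (w k) = sl w + 1`. Induction gives (i) for `w'`, so for `w = w' b` (`G u`, `G v` commute), and (ii).
(iii) `w = w₁ k w₂`. Apply (i), (ii) to `(x w₁ k, w₂)` and to `(x w₁, k w₂)` (all products are reduced; `u` is not a descent of `k w₂`, `w₂`, as they are right
factors of `w` in a reduced product): `sl (x w₁ k g) + 1 = sl (x w₁ k)` and `sl (x w₁ k k⁻¹) + 1 = sl (x w₁ k)`. If `u ≠ v'` (`k ∈ G v'`) the diamond gives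
adjacency. If `u = v'` then `k ∈ G u` commutes with `w₂` (by (i)), `sl (k w₂ k⁻¹) = sl w₂ < sl (k w₂)`, contradiction. -/
def E_0 : Prop := ∀ (V W : Type) [Group W] (Γ : SimpleGraph V) (G : V → Subgroup W) (sl : W → ℕ),
  GP Γ G sl → ∀ (u : V) (x w g : W), g ∈ G u → g ≠ 1 → sl (x * w) = sl x + sl w →
    sl (x * w * g) + 1 = sl (x * w) → (∀ h ∈ G u, h ≠ 1 → sl (w * h) = sl w + 1) →
    (∀ h ∈ G u, h * w = w * h) ∧ sl (x * g) + 1 = sl x ∧
    ∀ (w₁ k w₂ : W) (v : V), k ∈ G v → k ≠ 1 → w = w₁ * k * w₂ → sl w = sl w₁ + 1 + sl w₂ → Γ.Adj u v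

/-- PACKET RA-E1 (2.5 h). From `E_0`. Cliques: length of the product, permutations, replacement of a syllable, merging.

PROOF. (1) `sl (K.prod) = |K|`: (a) claim: `u` a left descent vertex of `K.prod` (some `h ∈ G u`, `sl (h⁻¹ K.prod) + 1 = sl K.prod`) implies that some `k ∈ K` is in `G u`, `k ≠ 1`:
induction on `K = k :: K'`, `k ∈ G v`: if `u ≠ v`, diamond with `k`, `h`: `sl (h⁻¹ k⁻¹ K.prod) + 2 = sl K.prod`, so `u` is a left descent of `K'.prod`. (b) length: `K = k :: K'`; if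
`sl (k K'.prod) ≠ sl K'.prod + 1` then (coset) `v` is a left descent vertex of `K'.prod`, so some `l ∈ K'` is in `G v`; but `k`, `l` are in groups of adjacent
vertices `u₁ ≠ u₂`, and `disj` gives `v = u₁` and `v = u₂`.
(2) permutations: elements of a clique commute (`comm`), `List.Perm` induction; sublists of cliques are cliques.
(3) replacement: `sl (x k) = sl x + 1`, so by `coset` `x` is minimal in `x G_u` and `sl (x l) = sl x + 1`; same for `y`. If `x . l . y` is not reduced, (4) for `K = [l]` gives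
`x = x' g`, `y = h y'` with `g, h ∈ G u'`, `u'` adjacent to `u`; then `x k y = x' k (g h) y'` has `sl ≤ sl x' + 2 + sl y' = sl x + sl y`, contradiction.
(4) merging: `x . d`, `d . y` reduced, `d = K.prod`, `x d y` not. Write `y = y₁ k y₂` reduced with `x d y₁` reduced and `x d y₁ k` not, `k ∈ G u` (`y₁` = longest such prefix for some
syllable factorization of `y`). By `coset` some `b ∈ G u`, `b ≠ 1`, has `sl (x d y₁ b) + 1 = sl (x d y₁)`; `u` is not a right descent of `d y₁` because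
`sl (d y₁ k) = sl (d y₁) + 1` (coset again). `E_0` for `(x, d y₁)`: `sl (x b) + 1 = sl x`: `g := b⁻¹`, `x' = x b`; `u` is adjacent to the vertices of all `k_i ∈ K` ((iii) with
`w₁`, `w₂` the other factors; use that permuting `K` one may assume `k_i` first); `G u` commutes with `d y₁`, and with `d`, so with `y₁`. So `y = k y₁ y₂`, `sl (y₁ y₂) = sl y - 1`. -/
def E_1 : Prop := ∀ (V W : Type) [Group W] (Γ : SimpleGraph V) (G : V → Subgroup W) (sl : W → ℕ),
  GP Γ G sl →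
  (∀ K : List W, IsClq Γ G K → sl K.prod = K.length) ∧
  (∀ K K' : List W, IsClq Γ G K → K.Perm K' → IsClq Γ G K' ∧ K.prod = K'.prod) ∧
  (∀ (u : V) (k l x y : W), k ∈ G u → k ≠ 1 → l ∈ G u → l ≠ 1 → sl (x * k * y) = sl x + 1 + sl y →
    sl (x * l * y) = sl x + 1 + sl y) ∧
  (∀ (K : List W) (x y : W), IsClq Γ G K → sl (x * K.prod) = sl x + K.length →
    sl (K.prod * y) = K.length + sl y → sl (x * K.prod * y) ≠ sl x + K.length + sl y →
    ∃ (u : V) (x' g h y' : W), g ∈ G u ∧ g ≠ 1 ∧ h ∈ G u ∧ h ≠ 1 ∧ x = x' * g ∧ sl x = sl x' + 1 ∧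
      y = h * y' ∧ sl y = sl y' + 1 ∧ ∀ k ∈ K, ∃ v, Γ.Adj u v ∧ k ∈ G v)

/-- PACKET RA-E2 (2.5 h). From `E_0`, `E_1`. The function `a'`, in the form `Ge m w` (`a'(w) ≥ m`).

PROOF. (1) `g, l ∈ G u`, `α g ≤ α l`, `sl (g w) = sl w + 1`, `g w = x d y` reduced with `d = K.prod`, `m ≤ a(K)`. `sl (l w) = sl w + 1` by `coset`
(`w` is minimal in `G_u w`). Case A: `u` is a left descent vertex of `x`: `x = g' x'`, `g' ∈ G u`, `sl x = sl x' + 1`. Then `g'⁻¹ g w = x' d y` has `sl ≤ sl (g w) - 1 = sl w`, so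
`g' = g` (else `sl (g'⁻¹ g w) = sl w + 1`), `l w = (l x') d y`, and `sl (l x') + |K| + sl y ≥ sl (l w) = sl w + 1 = sl (g w)`, `sl (l x') ≤ sl x`: equality. Case B: `u` is not a left
descent of `x`. `E_0` in the left form for the reduced product `x . (d y)` and `u`, a left descent of `x (d y)` (with syllable `g`): `G u` commutes with `x`, and `u` is a left
descent of `d y`: `sl (g⁻¹ d y) + 1 = sl (d y)`. Case B1: `u` is a left descent of `d`: by the claim (a) in `E_1` some `k ∈ K` is in `G u`; permute: `K = k :: K'`; then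
`sl (k⁻¹ d y) + 1 = sl (d y)` too, so `k = g` (uniqueness: `coset`). `K'' := l :: K'` is a clique, `a(K'') ≥ a(K)`, `l w = l g⁻¹ x d y = x K''.prod y`, and `sl (l w) = sl (g w) = sl x + |K| + sl y`.
Case B2: not: `E_0` (left) for `d . y`: `G u` commutes with `d`, `sl (g⁻¹ y) + 1 = sl y`, `y = g y'`: `l w = x d (l y')`, lengths as before. (2) right form: apply (1) to inverses:
`Ge m w ↔ Ge m w⁻¹`? (not available, as `α` need not be invariant under inverses) — instead repeat the argument with left and right exchanged (or prove (1) for an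
abstract `α` and apply it to `α' w := α w⁻¹`, the same `GP`; `K ↦` inverses, reversed).
(3) monotonicity: `w = x₁ d y₁` reduced, `x . w` reduced: `x w = (x x₁) d y₁`, `sl (x x₁) = sl x + sl x₁` is forced.
(4) `Ge 0 w`: `K = []`. `Ge m w → Ge m' w` for `m' ≤ m`. `w ≠ 1 → Ge 1 w`: `gen`, `a_pos`. `¬ Ge (m+1) 1`: `sl 1 = 0` forces `K = []`. `Ge (aK K) K.prod`, and
`Ge (aK K) (x * K.prod)`, `Ge (aK K) (K.prod * y)` for reduced products. Bounded: `a(K) ≤ N |K| ≤ N sl w`. -/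
def E_2 : Prop := ∀ (I W V H : Type) [Group W] [Ring H] [Algebra ℤ[T;T⁻¹] H] (X : Ctx I W V H),
  (∀ u, ∀ g ∈ X.G u, ∀ l ∈ X.G u, g ≠ 1 → l ≠ 1 → ∀ m w, X.α g ≤ X.α l → X.sl (g * w) = X.sl w + 1 →
    X.sl (l * w) = X.sl w + 1 ∧ (X.Ge m (g * w) → X.Ge m (l * w))) ∧
  (∀ u, ∀ g ∈ X.G u, ∀ l ∈ X.G u, g ≠ 1 → l ≠ 1 → ∀ m w, X.α g ≤ X.α l → X.sl (w * g) = X.sl w + 1 →
    X.sl (w * l) = X.sl w + 1 ∧ (X.Ge m (w * g) → X.Ge m (w * l))) ∧
  (∀ m x w, X.sl (x * w) = X.sl x + X.sl w → X.Ge m x ∨ X.Ge m w → X.Ge m (x * w)) ∧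
  (∀ w, X.Ge 0 w) ∧ (∀ m m' w, m' ≤ m → X.Ge m w → X.Ge m' w) ∧ (∀ w, w ≠ 1 → X.Ge 1 w) ∧
  (∀ m, ¬ X.Ge (m + 1) 1) ∧ (∀ K, X.Clq K → X.Ge (X.aK K) K.prod) ∧
  (∀ w, ∃ m, ¬ X.Ge m w)

/-! ## I: the ideals `I_M` -/

/-- PACKET RA-I1 (2 h). From `H_2`, `E_C`, `E_1`. The basis `C_w`.

PROOF. `E_C` for `N = H`, `f = c`: `C g = c_g` for `g ∈ G v` (also `g = 1`), `C (x y) = C x * C y` for reduced products; `C (K.prod) = ∏ c_k` for a clique (induction on `K`, `E_1`). Bar: induction on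
`sl w`, `bar` is a ring homomorphism. Triangular: induction on `sl w`: `w = g w'` reduced, `ℓ(w) = ℓ(g) + ℓ(w')` (`len`), `c_g = T_g + (shorter)`, `C_(w') = T_(w') + (shorter)`; `T_x T_y` has support in lengths
`≤ ℓ(x) + ℓ(y)` (`H_1`), `T_g T_(w') = T_w`. Basis and `b.repr (T_w)`: as in `H_3`. -/
def I_1 : Prop := ∀ (I W V H : Type) [Group W] [Ring H] [Algebra ℤ[T;T⁻¹] H] (X : Ctx I W V H),
  (∀ v, ∀ g ∈ X.G v, X.C g = X.D.c g) ∧ (∀ x y, X.sl (x * y) = X.sl x + X.sl y → X.C (x * y) = X.C x * X.C y) ∧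
  (∀ K, X.Clq K → X.C K.prod = (K.map X.D.c).prod) ∧ (∀ w, X.D.bar (X.C w) = X.C w) ∧
  (∀ w, X.D.t.repr (X.C w) w = 1) ∧ (∀ w y, X.D.t.repr (X.C w) y ≠ 0 → y = w ∨ X.cs.length y < X.cs.length w) ∧
  ∃ b : Module.Basis W ℤ[T;T⁻¹] H, (∀ w, b w = X.C w) ∧ (∀ w, b.repr (X.D.t w) w = 1) ∧
    ∀ w y, b.repr (X.D.t w) y ≠ 0 → y = w ∨ X.cs.length y < X.cs.length w

/-- PACKET RA-I2 (2.5 h). From `H_2`, `H_3`, `I_1`, `E_2`. `I_M` is a two-sided ideal.

PROOF. `H` is generated by the `T_g`, `g ∈ ⋃ G v` (`T_w` is a product of `T_(s_i)`, `simp`), and `T_g` (`g ∈ G v`) is a combination of the `c_(g')`, `g' ∈ G v` (`H_3` and `supp`: strong induction on `ℓ(g)`: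
`T_g = c_g - ∑_(y ≠ g) p_y T_y` with `y ∈ G v`, `ℓ(y) < ℓ(g)`; for `T_(s_i) = c_(s_i) - v^(-L) • 1` this is enough and trivial: it suffices that `I_M` is stable under `c_(s_i)`). So let `g = s_i ∈ G v`, `Ge (M+1) w`;
show `c_g C_w ∈ I_M`. Let `w = g₁ w'` with `g₁ ∈ G v` and `w'` minimal in its coset (`coset`). If `g₁ = 1`: `c_g C_w = C_(g w)`, `Ge (M+1) (g w)` by `E_2`. If `g₁ ≠ 1`: `C_w = c_(g₁) C_(w')`,
`c_g c_(g₁) = ∑_l h_(g,g₁,l) c_l`, `l ∈ G v` (`cl`), `α g₁ ≤ α l` (`p4`), so `l ≠ 1` (`α l ≥ α g₁ > 0 = α 1`), `c_l C_(w') = C_(l w')`, `Ge (M+1) (l w')` by `E_2`. Same on the right. -/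
def I_2 : Prop := ∀ (I W V H : Type) [Group W] [Ring H] [Algebra ℤ[T;T⁻¹] H] (X : Ctx I W V H) (M : ℕ) (Z Y : H),
  Z ∈ X.Idl M → Y * Z ∈ X.Idl M ∧ Z * Y ∈ X.Idl M

/-- PACKET RA-I3 (1.5 h). From `H_2`, `I_1`. `I_M` meets the span of the `T_w`, `¬ Ge (M+1) w`, trivially.

PROOF. Let `b` be the basis `C`. `Z ∈ I_M` implies `b.repr Z w = 0` for `¬ Ge (M+1) w`. (1) if `Z ≠ 0` let `w` be of maximal length with `D.t.repr Z w ≠ 0`; then `b.repr Z w = D.t.repr Z w ≠ 0` (triangularity of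
`b.repr (T_y)`), contradiction. (2) `bar` is semilinear and fixes the `C_w`, so `b.repr (bar Z) w = invert (b.repr Z w)`. If `Z ≠ 0` let `w` be as before, `β := D.t.repr Z w = b.repr Z w`; `b.repr (Z - bar Z) w = 0` gives
`β = invert β`, `deg β ≤ -1`, so `β = 0` (`eq_zero_of_invert`), contradiction. -/
def I_3 : Prop := ∀ (I W V H : Type) [Group W] [Ring H] [Algebra ℤ[T;T⁻¹] H] (X : Ctx I W V H) (M : ℕ) (Z : H),
  (∀ w, X.D.t.repr Z w ≠ 0 → ¬ X.Ge (M + 1) w) →
  (Z ∈ X.Idl M → Z = 0) ∧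
  ((∀ w, DegLE (-1) (X.D.t.repr Z w)) → Z - X.D.bar Z ∈ X.Idl M → Z = 0)

end Pool.Agent.Helper15.RA
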