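import Pool.Agent.Helper15.RA.GoalsK

/-!
# Project RA (MP_cc6379_al): goals, part 3. Blocks with at most two elements; existence of the Hecke algebra.
-/

set_option autoImplicit false

open LaurentPolynomial

noncomputable section

namespace Pool.Agent.Helper15.RA

/-- The alternating product `s_i s_j s_i ⋯` with `k` factors. -/
def al {I W : Type} [Group W] {M : CoxeterMatrix I} (cs : CoxeterSystem M W) (i j : I) : ℕ → W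
  | 0 => 1
  | k + 1 => cs.simple i * al cs j i k

/-- `E_1 = c_i`, `E_2 = c_i c_j`, `E_(k+2) = Z E_k - E_(k-2)` with `E_0 = E_(-1) = 0`. -/
def EE {H : Type} [Ring H] (ci cj Z : H) : ℕ → H
  | 0 => 0
  | 1 => ci
  | 2 => ci * cj
  | 3 => Z * ci
  | k + 4 => Z * EE ci cj Z (k + 2) - EE ci cj Z k

/-- `x_1 = c_i`, `x_(k+2) = c_i y_(k+1) - x_k`, with `y` the same sequence for `c_j, c_i`. -/
def XX {H : Type} [Ring H] (a b : H) : ℕ → H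
  | 0 => 0
  | 1 => a
  | k + 2 => a * XX b a (k + 1) - XX a b k

/-- The data of a finite dihedral group, `S = {s_i, s_j}`, `m_ij ≥ 3`. -/
structure Dih (I W H : Type) [Group W] [Ring H] [Algebra ℤ[T;T⁻¹] H] where
  M : CoxeterMatrix I
  cs : CoxeterSystem M W
  L : W → ℕ
  wt : IsWeight cs L
  D : Hecke cs L H
  h : W → W → W →₀ ℤ[T;T⁻¹]
  isH : D.IsH h
  i : I
  j : I
  ne : i ≠ j
  all : ∀ k, k = i ∨ k = j
  hm : 3 ≤ M i j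

namespace Dih

variable {I W H : Type} [Group W] [Ring H] [Algebra ℤ[T;T⁻¹] H] (X : Dih I W H)

/-- `m` -/
def m : ℕ := X.M X.i X.j

/-- `a = L(s_i)` -/
def a : ℕ := X.L (X.cs.simple X.i)

/-- `b = L(s_j)` -/
def b : ℕ := X.L (X.cs.simple X.j)

/-- `c_(s_i)` -/
def ci : H := X.D.c (X.cs.simple X.i)

/-- `c_(s_j)` -/
def cj : H := X.D.c (X.cs.simple X.j)

/-- `1_k = s_i s_j ⋯` -/
def p (k : ℕ) : W := al X.cs X.i X.j k

/-- `2_k = s_j s_i ⋯` -/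
def q (k : ℕ) : W := al X.cs X.j X.i k

/-- the longest element -/
def w0 : W := X.p X.m

/-- `ζ = v^(a-b) + v^(b-a)` -/
def zeta : ℤ[T;T⁻¹] := T ((X.a : ℤ) - X.b) + T ((X.b : ℤ) - X.a)

/-- `Z = c_i c_j - ζ` -/
def Z : H := X.ci * X.cj - X.zeta • 1

/-- `E_k` -/
def E (k : ℕ) : H := EE X.ci X.cj X.Z k

/-- the element `e = 1_(m-1)` (only used for `a > b`, `m` even) -/
def e : W := X.p (X.m - 1)

/-- `A_1 = a + (n-1)(a-b)`, `m = 2n` -/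
def A1 : ℕ := X.a + (X.m / 2 - 1) * (X.a - X.b)

/-- the middle elements (for `a > b`) -/
def Mid (w : W) : Prop := w ≠ 1 ∧ w ≠ X.cs.simple X.j ∧ w ≠ X.e ∧ w ≠ X.w0

end Dih

/-! ## R: dihedral groups -/

/-- PACKET RA-RW (2.5 h). Words in a finite dihedral group (`M i j ≠ 0`). Everything also holds with `i, j` exchanged.

PROOF. `m = M i j`, the group hom `φ : W → DihedralGroup m`, `s_i ↦ sr 0`, `s_j ↦ sr 1` (`cs.lift`; `sr a * sr b = r (b - a)`, `(r (±1))^m = 1`). `φ(1_(2l)) = r l`, `φ(1_(2l+1)) = sr (-l)`, `φ(2_(2l)) = r (-l)`, `φ(2_(2l+1)) = sr (1 + l)` (indices in `ZMod m`).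
Every `w` is `1_k` or `2_k` with `k = ℓ(w)`: a reduced word has no two equal neighbours. Length: let `k ≤ m` and `k' = ℓ(1_k) < k`; `k' ≡ k mod 2` (`lengthParity`, `length_mul_mod_two`), `1_k ∈ {1_(k'), 2_(k')}`. `k = 2l, k' = 2l'`: `l ≡ ± l' mod m`, but `0 < l - l' < m` and `0 < l + l' < m`. `k = 2l+1, k' = 2l'+1`: `l ≡ l'` or
`l + l' + 1 ≡ 0 mod m`, but `0 < l + l' + 1 < k ≤ m`. `1_m = 2_m`: `wordProd_braidWord_eq`, or `(s_i s_j)^m = 1`. So `1_k`, `2_k` for `k > m` are shorter and every `w` is `1_k` or `2_k` with `k ≤ m`. If `1_k = 2_(k')`, `k, k' ≤ m`: `k = k'` (length); if `0 < k < m`: `φ`: `2 l ≡ 0` with `0 < 2l = k < m`, or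
`2l + 1 ≡ 0` with `0 < 2l+1 = k < m`: impossible. Inverse: reverse the product. Weights: `ℓ` is additive, `L(1) = 0` from `L(1 * 1) = L(1) + L(1)`. `m` odd, `1_m = 2_m`: `(m+1)/2 L_i + (m-1)/2 L_j = (m+1)/2 L_j + (m-1)/2 L_i`. -/
def R_W : Prop := ∀ (I W : Type) [Group W] (M : CoxeterMatrix I) (cs : CoxeterSystem M W) (i j : I), i ≠ j →
    (∀ k, k = i ∨ k = j) → M i j ≠ 0 →
  (∀ k ≤ M i j, cs.length (al cs i j k) = k) ∧ al cs i j (M i j) = al cs j i (M i j) ∧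
  (∀ w, ∃ k ≤ M i j, w = al cs i j k ∨ w = al cs j i k) ∧
  (∀ k ≤ M i j, ∀ k' ≤ M i j, al cs i j k = al cs j i k' → k = k' ∧ (k = 0 ∨ k = M i j)) ∧
  (∀ k, Even k → (al cs i j k)⁻¹ = al cs j i k) ∧ (∀ k, Odd k → (al cs i j k)⁻¹ = al cs i j k) ∧
  ∀ L, IsWeight cs L → L 1 = 0 ∧ (∀ k < M i j, L (al cs i j (k + 1)) = L (cs.simple i) + L (al cs j i k)) ∧
    (∀ k < M i j, L (al cs i j k) < L (al cs i j (k + 1)) ∧ L (al cs j i k) < L (al cs i j (k + 1))) ∧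
    (L (cs.simple i) ≠ L (cs.simple j) → Even (M i j))

/-- PACKET RA-RX (2.5 h). From `H_1`, `H_2`, `R_W`. Equal parameters: `x_k = c_(1_k)` for `1 ≤ k ≤ m`.

PROOF. `B^s_j := c_i T_(2_j)`, `B^t_j := c_j T_(1_j)` (`c_s = T_s + v^(-a)`). `B^s_j = T_(1_(j+1)) + v^(-a) T_(2_j)` for `j + 1 ≤ m`. If `s_i y < y`: `c_i T_y = v^a c_i T_(s_i y)`. So `c_i B^t_j = c_i (T_(2_(j+1)) + v^(-a) T_(1_j)) = B^s_(j+1) + B^s_(j-1)` for `j ≥ 1` (`c_i T_(1_j) = v^a c_i T_(2_(j-1))`), and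
`c_i B^t_0 = c_i c_j = B^s_1 + v^(-a) B^s_0`. Claim: `x_k ∈ B^s_(k-1) + ∑_(j < k-1) (deg ≤ -1) B^s_j` for `1 ≤ k ≤ m`, and the same for `y_k` with `B^t`. `k = 1`: `c_i = B^s_0`. `k = 2`: `c_i y_1 - 0 = c_i c_j`. `k + 2 ≥ 3`: `x_(k+2) = c_i y_(k+1) - x_k`: `c_i B^t_k = B^s_(k+1) + B^s_(k-1)`, and `B^s_(k-1)` cancels with the leading term of `x_k`. Hence
`x_k - T_(1_k)` has coordinates of degree `≤ -1`, and `bar x_k = x_k` (polynomial in `c_i`, `c_j`): uniqueness (`H_2`). -/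
def R_X : Prop := ∀ (I W H : Type) [Group W] [Ring H] [Algebra ℤ[T;T⁻¹] H] (X : Dih I W H), X.a = X.b →
  (∀ k, 1 ≤ k → k ≤ X.m → XX X.ci X.cj k = X.D.c (X.p k)) ∧
  (∀ k, 1 ≤ k → k ≤ X.m → XX X.cj X.ci k = X.D.c (X.q k))

/-- PACKET RA-RE (3 h). From `H_1`, `H_2`, `R_W`. Unequal parameters `a > b`: `E_k = c_(1_k)`, `c_j E_k = c_(2_(k+1))`.

PROOF. `B_j := c_i T_(2_j) = T_(1_(j+1)) + v^(-a) T_(2_j)`. If `s y < y`: `c_s T_y = v^(L s) c_s T_(s y)`. `c_j B_j = T_(2_(j+2)) + v^(-b) T_(1_(j+1)) + v^(-a) (v^b T_(2_j) + T_(1_(j-1)))` for `j ≥ 1`, `c_j B_0 = T_(2_2) + v^(-b) T_(s_i) + v^(-a) (T_(s_j) + v^(-b))`. So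
`c_i c_j B_j = B_(j+2) + ζ B_j + B_(j-2)` (`j ≥ 2`), `c_i c_j B_1 = B_3 + ζ B_1 + v^(-a) B_0`, `c_i c_j B_0 = B_2 + ζ B_0 + (v^(-a-b) - v^(b-a)) B_0 + v^(-a) B_1`, as long as all words have length `≤ m`. With `Z = c_i c_j - ζ`: `Z B_j = B_(j+2) + B_(j-2)`, `Z B_1 = B_3 + v^(-a) B_0`,
`Z B_0 = B_2 + v^(-a) B_1 + (v^(-a-b) - v^(b-a)) B_0`. Claim: `E_k ∈ B_(k-1) + ∑_(j < k-1) (deg ≤ -1) B_j`, `1 ≤ k ≤ m`: `E_1 = B_0`, `E_2 = c_i c_j = B_1 + v^(-b) B_0`, `E_3 = Z B_0`, `E_(k+4) = Z E_(k+2) - E_k`: for `k = 0` `E_4 = Z (B_1 + v^(-b) B_0)`; for `k ≥ 1` `Z B_(k+1) = B_(k+3) + B_(k-1)` and `B_(k-1)` cancels with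
the leading term of `E_k`; the `B_j` with `deg ≤ -1` give such terms. Hence `E_k - T_(1_k)` has coordinates of degree `≤ -1`; `bar E_k = E_k` (`bar ζ = ζ`): uniqueness. `c_j E_k`: by the formula for `c_j B_j` (all coefficients of degree `≤ 0`, since `b < a`, and those other than the one of `T_(2_(j+2))` of degree `≤ -1`, except
`v^(-a) T_(1_(j-1))`: also `≤ -1`), `c_j E_k - T_(2_(k+1))` has coordinates of degree `≤ -1` for `k + 1 ≤ m`. -/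
def R_E : Prop := ∀ (I W H : Type) [Group W] [Ring H] [Algebra ℤ[T;T⁻¹] H] (X : Dih I W H), X.b < X.a →
  (∀ k, 1 ≤ k → k ≤ X.m → X.E k = X.D.c (X.p k)) ∧
  (∀ k, 1 ≤ k → k + 1 ≤ X.m → X.cj * X.E k = X.D.c (X.q (k + 1)))

/-- PACKET RA-RT (3 h). From `H_1`, `H_2`, `H_3`, `R_W`. The longest element.

PROOF. `ω' := ∑_y v^(L(y) - L(w₀)) T_y` (`W` is finite by `R_W`). For `s y > y` the pair `T_y, T_(s y)` has the coefficients `c, v^(L s) c`; so `T_s ω' = v^(L s) ω'`, and an element `Y` with `T_s Y = v^(L s) Y` for both `s` is a multiple of `ω'` (compare coefficients of `T_(s y)`: `c_(s y) = v^(L s) c_y`). `bar ω'` satisfies the same equations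
(`T_s⁻¹ bar ω' = v^(-L s) bar ω'`) and has the `T_(w₀)`-coefficient `1` (`H_2`), so `bar ω' = ω'`, and `ω' = c_(w₀)` by uniqueness (`L(y) < L(w₀)` for `y ≠ w₀`: `R_W`). Same on the right. So `c_s ω = dl(L s) ω = ω c_s` for `ω = c_(w₀)`, `T_x ω = v^(L x) ω = ω T_x`, `c_x ω = χ₀(x) ω = ω c_x`, `χ₀(x) = ∑_y p_(y,x) v^(L y)`: degree `≤ L(x)`, coefficient
of `v^(L x)` equal to `1` (`L(y) < L(x)` for `ℓ(y) < ℓ(x)`: `R_W`). With `H_3`: `h x w₀ z = 0 = h w₀ x z` for `z ≠ w₀`, `h w₀ w₀ w₀ = χ₀(w₀)`. Multiply `c_x c_y = ∑ h c_z` by `ω`: `χ₀(x) χ₀(y) = ∑_z h_(x,y,z) χ₀(z)`. If `deg h_(x,y,z) ≤ a₀(z)` and `a₀(z) + L(z) < 2 L(w₀)` for `z ≠ w₀`, then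
`h_(x,y,w₀) χ₀(w₀)` has degree `≤ max (L x + L y) (2 L(w₀) - 1)`, so (`degLE_of_mul`, `χ₀(w₀)` has exact degree `L(w₀)`) `deg h_(x,y,w₀) ≤ max (L x + L y - L(w₀)) (L(w₀) - 1)`. `L x < L(w₀)` for `x ≠ w₀`. -/
def R_T : Prop := ∀ (I W H : Type) [Group W] [Ring H] [Algebra ℤ[T;T⁻¹] H] (X : Dih I W H),
  X.ci * X.D.c X.w0 = dl X.a • X.D.c X.w0 ∧ X.cj * X.D.c X.w0 = dl X.b • X.D.c X.w0 ∧
  X.D.c X.w0 * X.ci = dl X.a • X.D.c X.w0 ∧ X.D.c X.w0 * X.cj = dl X.b • X.D.c X.w0 ∧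
  (∀ x z, z ≠ X.w0 → X.h x X.w0 z = 0 ∧ X.h X.w0 x z = 0) ∧
  (∀ y, X.D.t.repr (X.D.c X.w0) y = T ((X.L y : ℤ) - X.L X.w0)) ∧
  (X.h X.w0 X.w0 X.w0).coeff (X.L X.w0) ≠ 0 ∧
  ∀ a₀ : W → ℕ, (∀ z, z ≠ X.w0 → a₀ z + X.L z < 2 * X.L X.w0 ∧ ∀ x y, DegLE (a₀ z) (X.h x y z)) →
    ∀ x y, DegLE (X.L X.w0) (X.h x y X.w0) ∧
      (x ≠ X.w0 ∨ y ≠ X.w0 → DegLE ((X.L X.w0 : ℤ) - 1) (X.h x y X.w0))

/-- PACKET RA-RQ (3.5 h). From `H_2`, `H_3`, `H_V`, `R_W`, `R_X`, `R_T`. Finite dihedral groups with equal parameters are good.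

PROOF. `a`-function: `a(1) = 0`, `a(w₀) = L(w₀)`, `a(w) = a` otherwise (`w` in the middle). `x_k = XX c_i c_j k`, `y_k`. For `1 ≤ k ≤ m-1`: `c_i y_k = x_(k+1) + x_(k-1)`, `c_j x_k = y_(k+1) + y_(k-1)` (by definition), `x_0 = y_0 = 0`, `x_m = y_m = ω`. `c_i x_k = δ x_k` (`x_k ∈ c_i H`: induction; `c_i^2 = δ c_i`), `δ = dl a`. For a letter `u ∈ {i,j}` let
`S_u` be the additive group generated by the `c_w`, `w` in the middle and starting with `u` (the `x_k`, resp. `y_k`, `1 ≤ k ≤ m-1`). Then `c_u S_u = δ S_u` and `c_u S_(u') ⊂ S_u + ℤ ω` for `u' ≠ u`. Every `c_x`, `x ≠ 1` (also `ω`), is an integer combination of alternating monomials in `c_i, c_j`, all with the same last letter (the last letter of `x`).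
So for `y` in the middle, `c_x c_y ∈ κ (S_i + S_j) + ℤ[v,v⁻¹] ω` with `κ ∈ {1, δ}`, i.e. for `z` in the middle `h_(x,y,z) ∈ ℤ ∪ δ ℤ`, degree `≤ a`, and `h_(x,y,1) = 0`. `x = 1` or `y = 1`: `h_(x,1,z) = δ_(x,z)`. `y = w₀` or `x = w₀`: `R_T`. So for all `z ≠ w₀`: `deg h_(x,y,z) ≤ a(z)`, and if the coefficient of `v^(a(z))` is `≠ 0` then `a(x) = a(y) = a(z)`
(`z` in the middle: `x, y ≠ 1` since `a > 0`, `x, y ≠ w₀`). `z = w₀`: `R_T` (8) with `a₀ = a` (`a(z) + L(z) < 2 L(w₀)`: `a ≤ L(w₀)`, `L(z) < L(w₀)`), so the coefficient of `v^(L w₀)` is `≠ 0` only for `x = y = w₀`. P4: `h_(x,y,z) ≠ 0`, `z = 1`: `x = y = 1`; `z` middle: `x, y ≠ w₀`. Lower bound: `z = 1`: `c_1 c_1`; `z` in the middle starting with `u`: `c_u c_z = δ c_z`;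
`z = w₀`: `R_T`. P1: `p_(1,1) = 1`; `z` in the middle, starting with `u`: `c_u c_z = δ c_z` gives `T_u c_z = v^a c_z`, so `p_(1,z) = v^(-a) p_(u,z)`, degree `≤ -a`; `w₀`: `R_T`. `IsA`: degree `≤ a(z)` and a coefficient `≠ 0`. -/
def R_Q : Prop := ∀ (I W H : Type) [Group W] [Ring H] [Algebra ℤ[T;T⁻¹] H] (X : Dih I W H), X.a = X.b →
  ∃ a, Good X.D X.h a

/-- PACKET RA-RU (4 h). From `H_2`, `H_3`, `H_V`, `R_W`, `R_E`, `R_T`. Unequal parameters: the middle coordinates.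

PROOF. `m = 2n`, `n ≥ 2`. `E_k = c_(1_k)` (`1 ≤ k ≤ m`), `E_0 = 0`, `e = 1_(m-1)`, `E_(m-1) = c_e`, `E_m = ω = c_(w₀) = c_j E_(m-1)`. `c_i E_k = δ_i E_k` (`E_k ∈ c_i H`; `Z c_i = c_i (c_j c_i - ζ)`), so `c_i c_e = δ_i c_e`, `c_j c_e = ω`: `N := span(c_e, ω)` is a left ideal (`R_T` for `ω`), and a two-sided ideal by `H_V` (`e⁻¹ = e`, `w₀⁻¹ = w₀`).
Let `S` be the additive group generated by `E_1, .., E_(m-2)`. `Z S ⊂ S + N`: `Z E_k = E_(k+2) + E_(k-2)` (`k ≥ 3`, also `k = 2` with `E_0 = 0`), `Z E_1 = E_3`. `c_j S` is generated by the `c_(2_k)`, `2 ≤ k ≤ m-1`. The middle elements are the `1_k`, `1 ≤ k ≤ m-2`, and `2_k`, `2 ≤ k ≤ m-1`. Claim: for every `x ∈ W` and `y` in the middle: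
`c_x c_y ∈ ∑_κ κ (S + c_j S) + N`, `κ ∈ {δ_i, 1, ζ, δ_j, δ_j ζ}` (each of degree `≤ a`); and for `y = s_j`: the same with `κ ∈ {1, δ_j}` plus `ℤ[v,v⁻¹] c_j` and no `c_1`. Indeed `c_x` is `1`, `c_j`, or `c_j^ε P(Z) c_i c_j^φ`, `ε, φ ∈ {0,1}`, `P ∈ ℤ[Z]` (`E_(2l+1) = U_l(Z) c_i`, `E_(2l+2) = U_l(Z) c_i c_j`, `c_(2_(k+1)) = c_j E_k`). For `c_y ∈ S ∪ c_j S ∪ {c_j}`:
`c_i c_j^φ c_y` is: `φ = 0`: `S`: `δ_i S`; `c_j S`: `c_i c_j S = (Z + ζ) S`; `c_j`: `E_2 ∈ S` (`m ≥ 4`). `φ = 1`: `S`: `(Z + ζ) S`; `c_j S`: `δ_j (Z + ζ) S`; `c_j`: `δ_j E_2`. Then apply `P(Z)` (stays in `S + N`), then `c_j^ε`. `x = s_j`: `c_j S`, `c_j c_j S = δ_j c_j S`, `c_j c_j = δ_j c_j`.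
`y = 1`: `c_x`. `y ∈ {e, w₀}`: in `N`; `x ∈ {e, w₀}`: in `N` (two-sided). Reading off coordinates (`H_3`): for middle `z`, all `x, y`: `deg h_(x,y,z) ≤ a`, and `≤ a - 1` if `y ∈ {1, s_j}` (`b ≤ a - 1`); (4): `h_(x,y,s_j) ≠ 0` only for `y ∈ {1, s_j}` (`x` too by `H_V`), degree `≤ b`, for `y = 1` it is `0` or `1`; `h_(x,y,1) = 0` unless `x = y = 1`. The statement (7) is the symmetric
form: use `H_V` (`Mid z⁻¹`, `s_j⁻¹ = s_j`, `e⁻¹ = e`). -/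
def R_U : Prop := ∀ (I W H : Type) [Group W] [Ring H] [Algebra ℤ[T;T⁻¹] H] (X : Dih I W H), X.b < X.a →
  (X.ci * X.D.c X.e = dl X.a • X.D.c X.e ∧ X.cj * X.D.c X.e = X.D.c X.w0) ∧
  (∀ x y z, X.h x y z ≠ 0 → x = X.w0 ∨ y = X.w0 → z = X.w0) ∧
  (∀ x y z, X.h x y z ≠ 0 → x = X.e ∨ y = X.e → z = X.e ∨ z = X.w0) ∧
  (∀ x y z, X.h x y z ≠ 0 → X.Mid x ∨ X.Mid y → X.Mid z ∨ z = X.e ∨ z = X.w0) ∧
  (∀ x y, X.h x y 1 ≠ 0 → x = 1 ∧ y = 1) ∧ DegLE 0 (X.h 1 1 1) ∧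
  (∀ x y z, X.Mid z → DegLE X.a (X.h x y z) ∧
    (x = 1 ∨ x = X.cs.simple X.j ∨ y = 1 ∨ y = X.cs.simple X.j → DegLE ((X.a : ℤ) - 1) (X.h x y z))) ∧
  (∀ x y, DegLE X.b (X.h x y (X.cs.simple X.j)) ∧
    (x = 1 ∨ y = 1 → DegLE ((X.b : ℤ) - 1) (X.h x y (X.cs.simple X.j))))

/-- PACKET RA-RV (2.5 h). From `H_2`, `H_3`, `R_W`, `R_E`, `R_T`, `R_U`. Unequal parameters: the coordinate at `e`.

PROOF. `c_x c_e ≡ χ(x) c_e mod ω`, `χ(x) := h x e e` (`R_U` (3)). Multiplying `c_x c_y = ∑ h_(x,y,z) c_z` by `c_e`: `χ(x) χ(y) = ∑_z h_(x,y,z) χ(z)` (`ω c_e ∈ ℤ[v,v⁻¹] ω`). `χ(1) = 1`, `χ(s_i) = δ_i`, `χ(s_j) = 0`, `Z c_e ≡ -ζ c_e`. For `1_k`, `k` even: `E_k = (..) c_i c_j` so `χ = 0` (`E_2 c_e ≡ 0`, recursion); `χ(2_(k+1)) = 0` (`c_j c_e ≡ 0`).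
`u_l := χ(1_(2l+1))`: `u_0 = δ_i`, `u_1 = -ζ δ_i`, `u_(l+2) = -ζ u_(l+1) - u_l`: degree exactly `a + l (a-b)` with leading coefficient `(-1)^l`. So `χ(e) = u_(n-1)` has exact degree `A_1`, and `deg χ(x) ≤ A_1 - 1` for `x ≠ e` (`χ(w₀) = 0`). For `z` in the middle: `deg h_(x,y,z) ≤ a`, `deg χ(z) ≤ a + (n-2)(a-b) = A_1 - (a - b)`, total `≤ A_1 + b`; `z = 1`: `≤ 0`; `z = s_j, w₀`: `0`.
So `h_(x,y,e) χ(e)` has degree `≤ max (deg χ(x) + deg χ(y)) (A_1 + b)`, `b ≤ A_1 - 1`; `degLE_of_mul`: `deg h_(x,y,e) ≤ A_1`, and `≤ A_1 - 1` unless `x = y = e`. For `x = y = e`: `h_(e,e,z) = 0` for `z ≠ e, w₀`, so `h_(e,e,e) = χ(e)`. -/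
def R_V : Prop := ∀ (I W H : Type) [Group W] [Ring H] [Algebra ℤ[T;T⁻¹] H] (X : Dih I W H), X.b < X.a →
  (∀ x y, DegLE X.A1 (X.h x y X.e)) ∧ (∀ x y, x ≠ X.e ∨ y ≠ X.e → DegLE ((X.A1 : ℤ) - 1) (X.h x y X.e)) ∧
  (X.h X.e X.e X.e).coeff X.A1 ≠ 0

/-- PACKET RA-RP (2 h). From `H_1`, `H_2`, `R_W`, `R_E`, `R_T`. Unequal parameters: P1.

PROOF. `p_(y,w) := D.t.repr (c_w) y`. (i) `w = 1_k`, `1 ≤ k ≤ m`: `c_i c_w = δ_i c_w` (`c_w = E_k ∈ c_i H`), so `T_(s_i) c_w = v^a c_w` and `p_(y,w) = v^(-a) p_(s_i y, w)` for `s_i y > y`; `deg p_(1,w) ≤ -a`. (ii) `w = 2_(k+1)`, `1 ≤ k`, `k + 1 ≤ m - 1`: `c_w = c_j E_k`, `τ(c_w) = v^(-b) p_(1,1_k) + τ(T_(s_j) E_k) = v^(-b) p_(1,1_k) + p_(s_j,1_k)` (`H_1`: `τ(T_x T_y) = δ`), and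
`p_(s_j,1_k) = v^(-a) p_(s_i s_j, 1_k)`; degree `≤ -a`. (iii) `w = s_j`: `v^(-b)`. (iv) `w = e`: `c_j c_e = c_(w₀)` (`R_E`: `c_j E_(m-1) = c_(2_m) = c_(w₀)`), i.e. `T_(s_j) c_e = c_(w₀) - v^(-b) c_e`. Compare the coefficients of `T_(s_j y)` for `s_j y > y`: `p_(y,e) + ξ_j p_(s_j y,e) = p_(s_j y,w₀) - v^(-b) p_(s_j y,e)`, so
`p_(y,e) = p_(s_j y,w₀) - v^b p_(s_j y,e)`, `p_(s_j y,w₀) = v^(L(s_j y) - L(w₀))` (`R_T`). Let `q_r := p_(2_(2r), e)`, `0 ≤ r ≤ n-1`, `m = 2n`: `q_r = v^(-a) p_(1_(2r+1), e)` (by (i), `s_i 2_(2r) = 1_(2r+1)`), `p_(1_(2r+1),e) = p_(2_(2r+2),w₀) - v^b q_(r+1)` for `r + 1 ≤ n - 1`, and `p_(1_(2n-1),e) = 1`. By downward induction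
`deg q_r ≤ -(n-r) a + (n-1-r) b` (`L(2_(2r+2)) - L(w₀) = -(n-1-r)(a+b)`, smaller than `-(n-r-1)a + (n-1-r) b`). `r = 0`: `2_0 = 1`, `deg q_0 ≤ -(n a - (n-1) b) = -A_1`. -/
def R_P : Prop := ∀ (I W H : Type) [Group W] [Ring H] [Algebra ℤ[T;T⁻¹] H] (X : Dih I W H), X.b < X.a →
  (∀ w, X.Mid w → DegLE (-(X.a : ℤ)) (X.D.t.repr (X.D.c w) 1)) ∧
  DegLE (-(X.b : ℤ)) (X.D.t.repr (X.D.c (X.cs.simple X.j)) 1) ∧
  DegLE (-(X.A1 : ℤ)) (X.D.t.repr (X.D.c X.e) 1)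

/-- PACKET RA-RG (2 h). From `H_2`, `H_3`, `R_W`, `R_E`, `R_T`, `R_U`, `R_V`, `R_P`. Finite dihedral groups with `a > b` are good.

PROOF. `a`-function: `a(1) = 0`, `a(s_j) = b`, `a(e) = A_1`, `a(w₀) = L(w₀)`, `a(w) = a` for `Mid w`. `0 < b < a < A_1 < L(w₀) = n(a+b)` (`m = 2n ≥ 4` even by `R_W`; `A_1 = a + (n-1)(a-b)`). Upper bounds: `R_U`, `R_V`, and `R_T` (8) with `a₀ = a` (`a(z) + L(z) < 2 L(w₀)` because `a(z) < L(w₀)`, `L(z) < L(w₀)`). P4: `R_U`. P8: `z = w₀`: `R_T`; `z = e`: `R_V`;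
`z` middle: `R_U` excludes `1, s_j`, and `e, w₀` are excluded by `R_U` (2), (3), so `Mid x`, `Mid y`; `z = s_j`: `x, y ≠ 1`, and not `Mid`, `e`, `w₀` by `R_U`, so `x = y = s_j`; `z = 1`: `x = y = 1`. Lower bounds: `z = 1_k`: `c_i c_z = δ_i c_z` (`δ_i = dl a`); `z = 2_(k+1)`, `k ≥ 1`: `c_(2_2) c_(1_k) = c_j c_i E_k = δ_i c_j E_k = δ_i c_z` (`2_2 = s_j s_i`, `c_(2_2) = c_j c_i` by `R_E`, `k = 1`);
`z = s_j`: `c_j^2 = dl b c_j`; `z = 1`; `z = e`: `R_V`; `z = w₀`: `R_T`. P1: `R_P`, `R_T`, `c_1 = 1`. -/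
def R_G : Prop := ∀ (I W H : Type) [Group W] [Ring H] [Algebra ℤ[T;T⁻¹] H] (X : Dih I W H), X.b < X.a →
  ∃ a, Good X.D X.h a

/-- PACKET RA-RO (1.5 h). From `H_2`, `H_3`. Coxeter groups with at most one generator are good.

PROOF. `I` empty: `W = {1}` (`subgroup_closure_range_simple`), `c_1 = 1`, `h 1 1 1 = 1`, `a = 0`. `I = {i}`: `W = {1, s}`, `s = s_i ≠ 1` (`length_simple`); `c_1 = 1`, `c_s = T_s + v^(-L s)`, `c_s^2 = dl(L s) c_s`; `a(1) = 0`, `a(s) = L(s) > 0`. (B): `T_s^2 = ξ T_s + 1`, a finite group. -/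
def R_O : Prop := ∀ (I W : Type) [Subsingleton I] [Group W] (M : CoxeterMatrix I) (cs : CoxeterSystem M W)
    (L : W → ℕ), IsWeight cs L → GoodSys cs L

/-! ## X: existence of the Hecke algebra, the bar involution and the basis `c_w`, for every Coxeter group -/

/-- PACKET RA-XE (3.5 h). The exchange condition.

PROOF. For `i : I` the permutation `ρ_i` of `W × ZMod 2`, `ρ_i(t, ε) = (s_i t s_i, ε + [t = s_i])`, is an involution. For a word `ω`, with `w = wordProd ω`, `ρ_ω(t, ε) = (w t w⁻¹, ε + #{k : (rightInvSeq ω)_k = t})` (induction on `ω`). `(ρ_i ρ_j)^(M i j) = 1`: the word `(i j)^m` (`alternatingWord`, `2m` letters) has product `1` and its inversion sequence is periodic with period `m` (its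
`k`-th and `(k+m)`-th entries agree: `getElem_leftInvSeq_alternatingWord` or directly), so every `t` occurs an even number of times. So there is `η : W →* Equiv.Perm (W × ZMod 2)` with `η(w)(t, ε) = (w t w⁻¹, ε + n(w,t))`, `n(w,t)` = number of occurrences of `t` in `rightInvSeq ω` mod 2, for every word `ω` of `w`. `n(w w', t) = n(w', t) + n(w, w' t w'⁻¹)`. For a reflection `t = u s u⁻¹`:
`n(t,t) = n(u⁻¹, t) + n(s, s) + n(u, s) = n(s,s) = 1` (`n(u⁻¹,t) + n(u, s) = n(1, t) = 0`). Strong exchange: `t` a reflection, `ℓ(w t) < ℓ(w)`, `ω` any word of `w`: `t` occurs in `rightInvSeq ω`: otherwise `n(w,t) = 0`, `n(w t, t) = n(t,t) + n(w,t) = 1`, so `t` occurs in `rightInvSeq` of a reduced word of `w t`, and `ℓ(w t t) < ℓ(w t)` (`isRightInversion_of_mem_rightInvSeq`), contradiction.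
Now let `w`, `i`, `j` be as in the statement, `ω` a reduced word of `w`. `s_j` is a right inversion of `s_i w`, whose word `i :: ω` has `rightInvSeq = (w⁻¹ s_i w) :: rightInvSeq ω`. If `s_j ∈ rightInvSeq ω` then `ℓ(w s_j) < ℓ(w)`, contradiction. So `s_j = w⁻¹ s_i w`. -/
def X_E : Prop := ∀ (I W : Type) [Group W] (M : CoxeterMatrix I) (cs : CoxeterSystem M W) (i j : I) (w : W),
  cs.length w < cs.length (w * cs.simple j) → cs.length (cs.simple i * w * cs.simple j) < cs.length (cs.simple i * w) →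
    cs.simple i * w = w * cs.simple j

/-- PACKET RA-XH (3.5 h). From `X_E`. The Hecke algebra exists (Bourbaki IV, §2, ex. 23; Lusztig 3.3).

PROOF. `E := W →₀ ℤ[v,v⁻¹]` with basis `e_w`. `P_i e_w = e_(s_i w)` if `s_i w > w`, `ξ_i e_w + e_(s_i w)` otherwise; `Q_j e_w = e_(w s_j)` if `w s_j > w`, `ξ_j e_w + e_(w s_j)` otherwise (`ξ_i = v^(L s_i) - v^(-L s_i)`). `P_i Q_j = Q_j P_i`, on `e_w`: let `x = s_i w`, `y = w s_j`, `z = s_i w s_j`. Lengths: compare `w, x, y, z` (neighbours differ by `1`). If `x > w`,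
`y > w`, `z > x` (then `z > y`): both sides `e_z`. `x > w`, `y > w`, `z < x`: `X_E`: `x = y`, `z = w`, and `L(s_i) = L(s_j)` (`L(s_i) + L(w) = L(x) = L(w) + L(s_j)`), both sides `ξ e_x + e_w`. `x > w`, `y < w`: then `z > y` (`ℓ(z) = ℓ(w)`, as `ℓ(z) ≥ ℓ(x) - 1`; `ℓ(z) ≤ ℓ(y) + 1`): both `ξ_j e_x + e_z`. `x < w`, `y > w`: symmetric. `x < w`, `y < w`: `ℓ(z) = ℓ(w) - 2`: both
`ξ_i ξ_j e_w + ξ_j e_x + ξ_i e_y + e_z`; `ℓ(z) = ℓ(w)`: apply `X_E` to `w' = s_i w` (`w' s_j = z > w'`, `s_i w' s_j = y < w = s_i w'`): `s_i w' = w' s_j`, i.e. `w = z`, `x = y`, `L(s_i) = L(s_j)`: both `ξ² e_w + ξ e_x + ξ e_x + e_w`: check: `P_i Q_j e_w = P_i (ξ e_w + e_y) = ξ (ξ e_w + e_x) + e_(s_i y)`, with `s_i y = z = w > y`; fine.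
`𝓗` := the subalgebra of `End(E)` generated by the `P_i`; `ev : 𝓗 → E`, `P ↦ P e_1`. Surjective: `e_w = P_(i_1) ⋯ P_(i_r) e_1` for a reduced word. Injective: if `P e_1 = 0` then `P e_w = P Q_(i_r) ⋯ Q_(i_1) e_1 = Q ⋯ P e_1 = 0` for all `w`. Basis `t w := ev⁻¹(e_w)`. `t (s_i) = P_i`; `t w = P_(i_1) ⋯ P_(i_r)` for every reduced word; this gives `mul`. `quad`: `P_i² = ξ_i P_i + 1`. -/
def X_H : Prop := ∀ (I W : Type) [Group W] (M : CoxeterMatrix I) (cs : CoxeterSystem M W) (L : W → ℕ), IsWeight cs L →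
  ∃ (H : Type) (_ : Ring H) (_ : Algebra ℤ[T;T⁻¹] H), Nonempty (Hecke0 cs L H)

/-- PACKET RA-XB (2.5 h). From `H_1`. The bar involution exists.

PROOF. `T_s` is invertible: `T_s⁻¹ = T_s - ξ_s`; so all `T_w` are. `T'_w := (T_(w⁻¹))⁻¹`: `T'_(w w') = T'_w T'_(w')` if lengths add, `T'_s = T_s - ξ_s`. Define `bar` additively: `bar (∑ p_w T_w) = ∑ invert(p_w) T'_w`. `bar (T_s Y) = bar(T_s) bar(Y)` for `Y = p T_w`: `s w > w`: clear. `s w < w`: `T_s T_w = ξ T_w + T_(s w)`; `T'_s T'_w = T'_s T'_s T'_(s w)`, and `T_s⁻² = 1 - ξ T_s⁻¹`, so it is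
`T'_(s w) - ξ T'_w`, and `invert ξ = -ξ`. Induction on `ℓ(x)`: `bar (T_x Y) = bar (T_x) bar Y`, so `bar` is multiplicative (semilinearity), `bar 1 = 1`. `bar bar = id` on `T_s` (`bar (T_s - ξ) = T_s - ξ + ξ`), so on all `T_w`, semilinear twice is linear. `bar_t`: `bar (v^n T_w) = v^(-n) (T_(w⁻¹))⁻¹`. -/
def X_B : Prop := ∀ (I W H : Type) [Group W] [Ring H] [Algebra ℤ[T;T⁻¹] H] (M : CoxeterMatrix I)
    (cs : CoxeterSystem M W) (L : W → ℕ), Hecke0 cs L H → Nonempty (Hecke1 cs L H)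

/-- PACKET RA-XC (2.5 h). From `H_1`. The elements `c_w` exist (Kazhdan-Lusztig).

PROOF. As in `H_2`: `bar` is semilinear and `bar T_w ∈ T_w + ` (lengths `< ℓ(w)`). By strong induction on `ℓ(w)` construct `c_w` with `bar c_w = c_w`, `c_w - T_w = ∑_(ℓ(y) < ℓ(w)) p_y T_y`, `deg p_y ≤ -1`. `w = 1`: `T_1`. `w = s w'` reduced: `Y := c_s c_(w')`, `c_s = T_s + v^(-L s)` (`L(s) ≥ 1`, `bar c_s = c_s`), `bar Y = Y`, `Y = T_w + ∑_(ℓ(y) < ℓ(w)) r_y T_y` (finite sum).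
Claim: for every `k ≤ ℓ(w)` there is such a `Y` with `deg r_y ≤ -1` for all `y` with `ℓ(y) ≥ k`: downward induction: for the finitely many `y` with `ℓ(y) = k - 1`, `r_y ≠ 0`, let `μ_y` be the Laurent polynomial with `invert μ_y = μ_y`, `deg (r_y - μ_y) ≤ -1` (the coefficient of `v^n` and of `v^(-n)` is the coefficient of `v^n` in `r_y`, `n ≥ 0`); replace `Y` by `Y - ∑ μ_y c_y`; this does not change
coefficients in lengths `≥ k`, and `c_y` has the coefficient `1` at `T_y` and no other `T_z` with `ℓ(z) = ℓ(y)`. `k = 0` gives `c_w`. Choose one `c_w` for each `w`. -/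
def X_C : Prop := ∀ (I W H : Type) [Group W] [Ring H] [Algebra ℤ[T;T⁻¹] H] (M : CoxeterMatrix I)
    (cs : CoxeterSystem M W) (L : W → ℕ), IsWeight cs L → Hecke1 cs L H → Nonempty (Hecke cs L H)

end Pool.Agent.Helper15.RA
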