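import Pool.Agent.Helper15.RA.Asm2
import Pool.Agent.Helper56.RA.H1
import Pool.Agent.Helper4.RA.H2
import Pool.Agent.Helper3.RA.H3
import Pool.Agent.Helper61.RA.HJ
import Pool.Agent.Helper59.RA.HV
import Pool.Agent.Helper87.RA.NF
import Pool.Agent.Helper86.RA.NI
import Pool.Agent.Helper10.RA.NG
import Pool.Agent.Helper28.RA.EC
import Pool.Agent.Helper3.RA.NL
import Pool.Agent.Helper80.RA.E0
import Pool.Agent.Helper7.RA.E1
import Pool.Agent.Helper32.RA.E2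
import Pool.Agent.Helper99.RA.I1
import Pool.Agent.Helper18.RA.I2
import Pool.Agent.Helper80.RA.I3
import Pool.Agent.Helper2.RA.KE
import Pool.Agent.Helper12.RA.KT
import Pool.Agent.Helper98.RA.KD
import Pool.Agent.Helper35.RA.KA
import Pool.Agent.Helper49.RA.KP
import Pool.Agent.Helper97.RA.KB
import Pool.Agent.Helper28.RA.F1
import Pool.Agent.Helper36.RA.F2
import Pool.Agent.Helper5.RA.F3
import Pool.Agent.Helper19.RA.F4
import Pool.Agent.Helper82.RA.F5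
import Pool.Agent.Helper35.RA.V1
import Pool.Agent.Helper88.RA.V2
import Pool.Agent.Helper33.RA.V3
import Pool.Agent.Helper35.RA.RW
import Pool.Agent.Helper74.RA.RX
import Pool.Agent.Helper82.RA.RE
import Pool.Agent.Helper98.RA.RT
import Pool.Agent.Helper88.RA.RQ
import Pool.Agent.Helper2.RA.RU
import Pool.Agent.Helper41.RA.RV
import Pool.Agent.Helper8.RA.RP
import Pool.Agent.Helper36.RA.RG
import Pool.Agent.Helper33.RA.RO
import Pool.Agent.Helper33.RA.XE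
import Pool.Agent.Helper64.RA.XH
import Pool.Agent.Helper13.RA.XB
import Pool.Agent.Helper97.RA.XC

/-!
# Project RA (MP_cc6379_al): all goals
-/

set_option autoImplicit false

namespace Pool.Agent.Helper15.RA

theorem g_h1 : H_1 := Helper56.RA.h_h1
theorem g_h2 : H_2 := Helper4.RA.h_h2 g_h1
theorem g_h3 : H_3 := Helper3.RA.h_h3 g_h2
theorem g_hj : H_J := Helper61.RA.h_hj g_h3
theorem g_hv : H_V := Helper59.RA.h_hv g_h1 g_h2 g_h3
theorem g_nnf : N_NF := Helper87.RA.h_nnf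
theorem g_ni : N_I := Helper86.RA.h_ni
theorem g_ng : N_G := Helper10.RA.h_ng g_nnf g_ni
theorem g_ec : E_C := Helper28.RA.h_ec
theorem g_nl : N_L := Helper3.RA.h_nl g_ec
theorem g_e0 : E_0 := Helper80.RA.h_e0
theorem g_e1 : E_1 := Helper7.RA.h_e1 g_e0
theorem g_e2 : E_2 := Helper32.RA.h_e2 g_e0 g_e1
theorem g_i1 : I_1 := Helper99.RA.h_i1 g_h1 g_h2 g_ec g_e1
theorem g_i2 : I_2 := Helper18.RA.h_i2 g_h2 g_i1 g_e2
theorem g_i3 : I_3 := Helper80.RA.h_i3 g_h2 g_i1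
theorem g_ke : K_E := Helper2.RA.h_ke g_h2 g_e1
theorem g_kt : K_T := Helper12.RA.h_kt g_h1 g_e1
theorem g_kd : K_D := Helper98.RA.h_kd g_e1 g_e2
theorem g_ka : K_A := Helper35.RA.h_ka g_ke g_kt g_kd g_i1 g_i2 g_e1 g_e2
theorem g_kp : K_P := Helper49.RA.h_kp g_h2 g_h3
theorem g_kb : K_B := Helper97.RA.h_kb g_h1 g_ke g_kt g_kd g_kp g_i1 g_i2 g_e1 g_e2
theorem g_f1 : F_1 := Helper28.RA.h_f1 g_h2 g_i3
theorem g_f2 : F_2 := Helper36.RA.h_f2 g_i3 g_f1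
theorem g_f3 : F_3 := Helper5.RA.h_f3 g_h2 g_e2 g_i2 g_f1 g_f2
theorem g_f4 : F_4 := Helper19.RA.h_f4 g_h1 g_h2 g_h3 g_ke g_kd g_kp g_e1 g_f2
theorem g_f5 : F_5 := Helper82.RA.h_f5 g_h1 g_e1
theorem g_v1 : V_1 := Helper35.RA.h_v1 g_h1 g_h2 g_ni
theorem g_v2 : V_2 := Helper88.RA.h_v2 g_v1 g_ni g_h1 g_h2 g_h3
theorem g_v3 : V_3 := Helper33.RA.h_v3 g_h1 g_h2 g_h3 g_ni g_v2
theorem g_rw : R_W := Helper35.RA.h_rw
theorem g_rx : R_X := Helper74.RA.h_rx g_h1 g_h2 g_rw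
theorem g_re : R_E := Helper82.RA.h_re g_h1 g_h2 g_rw
theorem g_rt : R_T := Helper98.RA.h_rt g_h1 g_h2 g_h3 g_rw
theorem g_rq : R_Q := Helper88.RA.h_rq g_h1 g_h2 g_h3 g_rw g_rx g_rt
theorem g_ru : R_U := Helper2.RA.h_ru g_h2 g_h3 g_hv g_rw g_re g_rt
theorem g_rv : R_V := Helper41.RA.h_rv g_h2 g_h3 g_rw g_re g_ru
theorem g_rp : R_P := Helper8.RA.h_rp g_h1 g_h2 g_rw g_re g_rt
theorem g_rg : R_G := Helper36.RA.h_rg g_h2 g_h3 g_rw g_re g_rt g_ru g_rv g_rp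
theorem g_ro : R_O := Helper33.RA.h_ro g_h2 g_h3
theorem g_xe : X_E := Helper33.RA.h_xe
theorem g_xh : X_H := Helper64.RA.h_xh g_xe
theorem g_xb : X_B := Helper13.RA.h_xb g_h1
theorem g_xc : X_C := Helper97.RA.h_xc g_h1

theorem facts : Facts where
  h1 := g_h1
  h2 := g_h2
  h3 := g_h3
  hJ := g_hj
  nI := g_ni
  nG := g_ng
  nL := g_nl
  e1 := g_e1
  e2 := g_e2
  kA := g_ka
  kB := g_kb
  f1 := g_f1
  f3 := g_f3
  f4 := g_f4
  f5 := g_f5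
  v1 := g_v1
  v3 := g_v3
  rW := g_rw
  rQ := g_rq
  rG := g_rg
  rO := g_ro
  xH := g_xh
  xB := g_xb
  xC := g_xc

end Pool.Agent.Helper15.RA
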