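import Pool.Agent.Helper15.RA.Defs

/-!
# Project RA: elementary lemmas on degrees and on the sets `Low`, `Lam`, `LamT`.
-/

set_option autoImplicit false

open LaurentPolynomial

noncomputable section

namespace Pool.Agent.Helper15.RA

/-- `v^n - v^(-n)` -/
def xi (n : ℕ) : ℤ[T;T⁻¹] := T n - T (-(n : ℤ))

/-- `v^n + v^(-n)` -/
def dl (n : ℕ) : ℤ[T;T⁻¹] := T n + T (-(n : ℤ))

namespace DegLE

variable {k l : ℤ} {p q : ℤ[T;T⁻¹]}

theorem zero (k : ℤ) : DegLE k (0 : ℤ[T;T⁻¹]) := fun _ _ => rfl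

theorem mono (h : DegLE k p) (hkl : k ≤ l) : DegLE l p := fun n hn => h n (hkl.trans_lt hn)

theorem add (hp : DegLE k p) (hq : DegLE k q) : DegLE k (p + q) := fun n hn => by
  rw [AddMonoidAlgebra.coeff_add, Finsupp.add_apply, hp n hn, hq n hn, add_zero]

theorem neg (hp : DegLE k p) : DegLE k (-p) := fun n hn => by
  rw [AddMonoidAlgebra.coeff_neg, Finsupp.neg_apply, hp n hn, neg_zero]

theorem sub (hp : DegLE k p) (hq : DegLE k q) : DegLE k (p - q) := by
  rw [sub_eq_add_neg]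
  exact hp.add hq.neg

theorem sum {ι : Type*} {s : Finset ι} {f : ι → ℤ[T;T⁻¹]} (h : ∀ i ∈ s, DegLE k (f i)) :
    DegLE k (∑ i ∈ s, f i) := by
  classical
  induction s using Finset.induction_on with
  | empty => exact zero k
  | insert i s hi ih =>
    rw [Finset.sum_insert hi]
    exact (h i (Finset.mem_insert_self i s)).add (ih fun j hj => h j (Finset.mem_insert_of_mem hj))

theorem T_le {n : ℤ} (h : n ≤ k) : DegLE k (T n : ℤ[T;T⁻¹]) := fun m hm => by
  rw [T_apply, if_neg]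
  omega

theorem one (h : 0 ≤ k) : DegLE k (1 : ℤ[T;T⁻¹]) := by
  rw [← T_zero]
  exact T_le h

theorem C_le (a : ℤ) (h : 0 ≤ k) : DegLE k (C a : ℤ[T;T⁻¹]) := fun m hm => by
  rw [C_apply, if_neg]
  omega

theorem mul (hp : DegLE k p) (hq : DegLE l q) : DegLE (k + l) (p * q) := fun n hn => by
  classical
  rw [AddMonoidAlgebra.coeff_mul]
  refine Finset.sum_eq_zero fun i hi => Finset.sum_eq_zero fun j hj => ?_
  simp only
  rw [if_neg]
  intro h
  have h1 : i ≤ k := not_lt.1 fun h => Finsupp.mem_support_iff.1 hi (hp i h)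
  have h2 : j ≤ l := not_lt.1 fun h => Finsupp.mem_support_iff.1 hj (hq j h)
  omega

theorem mul_le {m : ℤ} (hp : DegLE k p) (hq : DegLE l q) (h : k + l ≤ m) : DegLE m (p * q) :=
  (hp.mul hq).mono h

theorem intCast (a : ℤ) (h : 0 ≤ k) : DegLE k (a : ℤ[T;T⁻¹]) := by
  have : (a : ℤ[T;T⁻¹]) = C a := by simp
  rw [this]
  exact C_le a h

theorem xi (n : ℕ) : DegLE n (xi n) := (T_le le_rfl).sub (T_le (by omega))

theorem dl (n : ℕ) : DegLE n (dl n) := (T_le le_rfl).add (T_le (by omega))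

end DegLE

theorem exists_degLE (p : ℤ[T;T⁻¹]) : ∃ k : ℤ, DegLE k p := by
  classical
  obtain ⟨k, hk⟩ := (p.coeff.support : Finset ℤ).bddAbove
  refine ⟨k, fun n hn => ?_⟩
  by_contra h
  exact absurd (hk (Finsupp.mem_support_iff.2 h)) (not_le.2 hn)

theorem eq_zero_of_degLE {p : ℤ[T;T⁻¹]} (h : ∀ k : ℤ, DegLE k p) : p = 0 :=
  LaurentPolynomial.ext fun n => h (n - 1) n (by omega)

theorem eq_zero_of_invert {p : ℤ[T;T⁻¹]} (h : DegLE (-1) p) (h2 : invert p = p) : p = 0 :=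
  LaurentPolynomial.ext fun n => by
    rcases lt_or_ge n 0 with hn | hn
    · rw [← h2, invert_apply]
      exact h (-n) (by omega)
    · exact h n (by omega)

/-- the coefficient of `v^(k+l)` of a product -/
theorem coeff_mul_top {k l : ℤ} {p q : ℤ[T;T⁻¹]} (hp : DegLE k p) (hq : DegLE l q) :
    (p * q).coeff (k + l) = p.coeff k * q.coeff l := by
  classical
  rw [AddMonoidAlgebra.coeff_mul]
  have h1 : ∀ i j : ℤ, i ≤ k → j ≤ l → i + j = k + l → i = k ∧ j = l := fun i j h1 h2 h3 => by omega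
  rw [Finsupp.sum, Finset.sum_eq_single k]
  · rw [Finsupp.sum, Finset.sum_eq_single l]
    · rw [if_pos rfl]
    · intro j _ hj
      rw [if_neg]
      omega
    · intro h
      rw [Finsupp.notMem_support_iff.1 h, mul_zero, ite_self]
  · intro i hi hik
    refine Finset.sum_eq_zero fun j hj => ?_
    simp only
    rw [if_neg]
    intro h
    refine hik (h1 i j ?_ ?_ h).1
    · exact not_lt.1 fun h => Finsupp.mem_support_iff.1 hi (hp i h)
    · exact not_lt.1 fun h => Finsupp.mem_support_iff.1 hj (hq j h)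
  · intro h
    refine Finset.sum_eq_zero fun j _ => ?_
    simp only
    rw [Finsupp.notMem_support_iff.1 h, zero_mul, ite_self]

theorem degLE_sub_one {k : ℤ} {p : ℤ[T;T⁻¹]} (h : DegLE k p) (h0 : p.coeff k = 0) : DegLE (k - 1) p :=
  fun n hn => by
    rcases eq_or_lt_of_le (show k ≤ n by omega) with h1 | h1
    · rw [← h1, h0]
    · exact h n h1

/-- division by a Laurent polynomial of exact degree `d` -/
theorem degLE_of_mul {k d : ℤ} {p q : ℤ[T;T⁻¹]} (hq : DegLE d q) (hq0 : q.coeff d ≠ 0)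
    (h : DegLE (k + d) (p * q)) : DegLE k p := by
  obtain ⟨m, hm⟩ := exists_degLE p
  have key : ∀ n : ℕ, DegLE (k + n) p → DegLE k p := by
    intro n
    induction n with
    | zero => exact fun h => h.mono (by simp)
    | succ n ih =>
      intro h1
      apply ih
      have h2 : p.coeff (k + (n + 1 : ℕ)) = 0 := by
        have h3 := coeff_mul_top h1 hq
        rw [h _ (by push_cast; omega)] at h3
        exact (mul_eq_zero.1 h3.symm).resolve_right hq0
      exact (degLE_sub_one h1 h2).mono (by push_cast; omega)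
  exact key (m - k).toNat (hm.mono (by omega))

/-! ## `Low`, `Lam`, `LamT` -/

namespace Ctx

variable {I W V H : Type} [Group W] [Ring H] [Algebra ℤ[T;T⁻¹] H] {X : Ctx I W V H}

section

variable {M n n' : ℕ} {k k' : ℤ} {Y Z : H} {p : ℤ[T;T⁻¹]}

theorem Low.add (hY : X.Low M n k Y) (hZ : X.Low M n k Z) : X.Low M n k (Y + Z) := by
  intro w
  rw [map_add, Finsupp.add_apply]
  refine ⟨(hY w).1.add (hZ w).1, fun h => ?_⟩
  by_cases h1 : X.D.t.repr Y w = 0
  · exact (hZ w).2 fun h2 => h (by rw [h1, h2, add_zero])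
  · exact (hY w).2 h1

theorem Low.neg (hY : X.Low M n k Y) : X.Low M n k (-Y) := by
  intro w
  rw [map_neg, Finsupp.neg_apply]
  exact ⟨(hY w).1.neg, fun h => (hY w).2 (neg_ne_zero.1 h)⟩

theorem Low.zero (M n : ℕ) (k : ℤ) : X.Low M n k 0 := by
  intro w
  rw [map_zero, Finsupp.zero_apply]
  exact ⟨DegLE.zero k, fun h => absurd rfl h⟩

theorem Low.smul (hp : DegLE k' p) (hY : X.Low M n k Y) : X.Low M n (k' + k) (p • Y) := by
  intro w
  rw [map_smul, Finsupp.smul_apply, smul_eq_mul]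
  exact ⟨hp.mul (hY w).1, fun h => (hY w).2 (right_ne_zero_of_mul h)⟩

theorem Low.mono (hY : X.Low M n k Y) (hn : n ≤ n') (hk : k ≤ k') : X.Low M n' k' Y := fun w =>
  ⟨(hY w).1.mono hk, fun h => ⟨((hY w).2 h).1, ((hY w).2 h).2.trans hn⟩⟩

theorem Lam.add (hY : X.Lam M n k Y) (hZ : X.Lam M n k Z) : X.Lam M n k (Y + Z) := by
  obtain ⟨y, h1, h2⟩ := hY
  obtain ⟨z, h3, h4⟩ := hZ
  refine ⟨y + z, h1.add h3, ?_⟩
  rw [add_sub_add_comm]
  exact add_mem h2 h4

theorem Lam.neg (hY : X.Lam M n k Y) : X.Lam M n k (-Y) := by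
  obtain ⟨y, h1, h2⟩ := hY
  refine ⟨-y, h1.neg, ?_⟩
  rw [show -Y - -y = -(Y - y) by abel]
  exact neg_mem h2

theorem Lam.sub (hY : X.Lam M n k Y) (hZ : X.Lam M n k Z) : X.Lam M n k (Y - Z) := by
  rw [sub_eq_add_neg]
  exact hY.add hZ.neg

theorem Lam.zero (M n : ℕ) (k : ℤ) : X.Lam M n k 0 := ⟨0, Low.zero M n k, by simp⟩

theorem Lam.smul (hp : DegLE k' p) (hY : X.Lam M n k Y) : X.Lam M n (k' + k) (p • Y) := by
  obtain ⟨y, h1, h2⟩ := hY
  refine ⟨p • y, h1.smul hp, ?_⟩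
  rw [← smul_sub]
  exact Submodule.smul_mem _ _ h2

theorem Lam.mono (hY : X.Lam M n k Y) (hn : n ≤ n') (hk : k ≤ k') : X.Lam M n' k' Y := by
  obtain ⟨y, h1, h2⟩ := hY
  exact ⟨y, h1.mono hn hk, h2⟩

theorem Lam.sum {ι : Type*} {s : Finset ι} {f : ι → H} (h : ∀ i ∈ s, X.Lam M n k (f i)) :
    X.Lam M n k (∑ i ∈ s, f i) := by
  classical
  induction s using Finset.induction_on with
  | empty => exact Lam.zero M n k
  | insert i s hi ih =>
    rw [Finset.sum_insert hi]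
    exact (h i (Finset.mem_insert_self i s)).add (ih fun j hj => h j (Finset.mem_insert_of_mem hj))

theorem Lam.of_idl (h : Y ∈ X.Idl M) : X.Lam M n k Y := ⟨0, Low.zero M n k, by rwa [sub_zero]⟩

theorem Lam.of_low (h : X.Low M n k Y) : X.Lam M n k Y := ⟨Y, h, by simp⟩

theorem LamT.lam (h : X.LamT M n k Y) : X.Lam M n k Y := by
  obtain ⟨y, h1, h2, _⟩ := h
  exact ⟨y, h1, h2⟩

theorem LamT.add (hY : X.LamT M n k Y) (hZ : X.LamT M n k Z) : X.LamT M n k (Y + Z) := by
  obtain ⟨y, h1, h2, h5⟩ := hY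
  obtain ⟨z, h3, h4, h6⟩ := hZ
  refine ⟨y + z, h1.add h3, ?_, ?_⟩
  · rw [add_sub_add_comm]
    exact add_mem h2 h4
  · rw [add_sub_add_comm, map_add, Finsupp.add_apply]
    exact h5.add h6

theorem LamT.neg (hY : X.LamT M n k Y) : X.LamT M n k (-Y) := by
  obtain ⟨y, h1, h2, h3⟩ := hY
  refine ⟨-y, h1.neg, ?_, ?_⟩
  · rw [show -Y - -y = -(Y - y) by abel]
    exact neg_mem h2
  · rw [show -Y - -y = -(Y - y) by abel, map_neg, Finsupp.neg_apply]
    exact h3.neg

theorem LamT.sub (hY : X.LamT M n k Y) (hZ : X.LamT M n k Z) : X.LamT M n k (Y - Z) := by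
  rw [sub_eq_add_neg]
  exact hY.add hZ.neg

theorem LamT.zero (M n : ℕ) (k : ℤ) : X.LamT M n k 0 :=
  ⟨0, Low.zero M n k, by simp, by simpa using DegLE.zero _⟩

theorem LamT.smul (hp : DegLE k' p) (hY : X.LamT M n k Y) : X.LamT M n (k' + k) (p • Y) := by
  obtain ⟨y, h1, h2, h3⟩ := hY
  refine ⟨p • y, h1.smul hp, ?_, ?_⟩
  · rw [← smul_sub]
    exact Submodule.smul_mem _ _ h2
  · rw [← smul_sub, map_smul, Finsupp.smul_apply, smul_eq_mul]
    exact hp.mul_le h3 (by omega)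

theorem LamT.mono (hY : X.LamT M n k Y) (hn : n ≤ n') (hk : k ≤ k') : X.LamT M n' k' Y := by
  obtain ⟨y, h1, h2, h3⟩ := hY
  exact ⟨y, h1.mono hn hk, h2, h3.mono (by omega)⟩

theorem LamT.smul_le (hp : DegLE k' p) (hY : X.LamT M n k Y) (hn : n ≤ n') {m : ℤ} (h : k' + k ≤ m) :
    X.LamT M n' m (p • Y) := (hY.smul hp).mono hn h

theorem Lam.smul_le (hp : DegLE k' p) (hY : X.Lam M n k Y) (hn : n ≤ n') {m : ℤ} (h : k' + k ≤ m) :
    X.Lam M n' m (p • Y) := (hY.smul hp).mono hn h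

theorem LamT.sum {ι : Type*} {s : Finset ι} {f : ι → H} (h : ∀ i ∈ s, X.LamT M n k (f i)) :
    X.LamT M n k (∑ i ∈ s, f i) := by
  classical
  induction s using Finset.induction_on with
  | empty => exact LamT.zero M n k
  | insert i s hi ih =>
    rw [Finset.sum_insert hi]
    exact (h i (Finset.mem_insert_self i s)).add (ih fun j hj => h j (Finset.mem_insert_of_mem hj))

/-- elements of `I_M` with controlled `T_1`-coefficient -/
theorem LamT.of_idl (h : Y ∈ X.Idl M) (h1 : DegLE (k - M) (X.D.t.repr Y 1)) : X.LamT M n k Y :=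
  ⟨0, Low.zero M n k, by rwa [sub_zero], by rwa [sub_zero]⟩

theorem LamT.of_low (h : X.Low M n k Y) : X.LamT M n k Y :=
  ⟨Y, h, by simp, by simpa using DegLE.zero _⟩

end

variable (X)

theorem eps_nonneg (M : ℕ) (x : W) (K : List W) (y : W) : 0 ≤ X.eps M x K y := by
  unfold eps
  split_ifs <;> decide

theorem eps_le_one (M : ℕ) (x : W) (K : List W) (y : W) : X.eps M x K y ≤ 1 := by
  unfold eps
  split_ifs <;> decide

/-- to prove `ε ≤ ε'` -/
theorem eps_le {M : ℕ} {x x' y y' : W} {K K' : List W}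
    (h1 : X.Ge M (x' * K'.prod) → X.Ge M (x * K.prod)) (h2 : X.Ge M (K'.prod * y') → X.Ge M (K.prod * y)) :
    X.eps M x K y ≤ X.eps M x' K' y' := by
  unfold eps
  split_ifs with h3 h4
  · exact le_rfl
  · push Not at h4
    rcases h3 with h3 | h3
    · exact absurd (h1 h4.1) h3
    · exact absurd (h2 h4.2) h3
  · decide
  · exact le_rfl

theorem aK_nil : X.aK [] = 0 := rfl

theorem aK_cons (k : W) (K : List W) : X.aK (k :: K) = X.α k + X.aK K := by
  simp [aK]

theorem aK_append (K K' : List W) : X.aK (K ++ K') = X.aK K + X.aK K' := by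
  simp [aK]

end Ctx

end Pool.Agent.Helper15.RA
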