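import Pool.Agent.Helper15.RA.GoalsR

/-!
# Project RA (MP_cc6379_al): assembly
-/

set_option autoImplicit false

open LaurentPolynomial

noncomputable section

namespace Pool.Agent.Helper15.RA

/-! ## The key induction -/

theorem k_all (hA : K_A) (hB : K_B) {I W V H : Type} [Group W] [Ring H] [Algebra ℤ[T;T⁻¹] H] (X : Ctx I W V H)
    (n : ℕ) : X.SB n ∧ X.SA (n + 1) := by
  induction n with
  | zero =>
    have h0 : X.SB 0 := fun M x F y _ h => absurd h (Nat.not_lt_zero _)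
    exact ⟨h0, hA I W V H X 0 h0⟩
  | succ n ih =>
    have h1 := hB I W V H X n ih.1 ih.2
    exact ⟨h1, hA I W V H X (n + 1) h1⟩

/-! ## `a'` and the properties of `W` -/

section

variable {I W V H : Type} [Group W] [Ring H] [Algebra ℤ[T;T⁻¹] H] (X : Ctx I W V H)

theorem exists_aa (h2 : E_2) (w : W) : ∃ m, ¬ X.Ge (m + 1) w := by
  obtain ⟨-, -, -, h0, -, -, -, -, hb⟩ := h2 I W V H X
  obtain ⟨m, hm⟩ := hb w
  rcases m with _ | m
  · exact absurd (h0 w) hm
  · exact ⟨m, hm⟩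

open Classical in
/-- the function `a'` -/
def aa (h2 : E_2) (w : W) : ℕ := Nat.find (exists_aa X h2 w)

theorem ge_iff (h2 : E_2) (m : ℕ) (w : W) : X.Ge m w ↔ m ≤ aa X h2 w := by
  classical
  obtain ⟨-, -, -, h0, hmono, -, -, -, -⟩ := h2 I W V H X
  constructor
  · intro h
    by_contra hlt
    push Not at hlt
    exact Nat.find_spec (exists_aa X h2 w) (hmono m _ w hlt h)
  · intro h
    refine hmono (aa X h2 w) m w h ?_
    rcases Nat.eq_zero_or_pos (aa X h2 w) with h1 | h1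
    · rw [h1]
      exact h0 w
    · obtain ⟨k, hk⟩ := Nat.exists_eq_succ_of_ne_zero h1.ne'
      by_contra hc
      have h3 : aa X h2 w ≤ k := Nat.find_min' (exists_aa X h2 w) (by rwa [hk] at hc)
      omega

theorem good_ctx (hh2 : H_2) (h2 : E_2) (hA : K_A) (hB : K_B) (f1 : F_1) (f3 : F_3) (f4 : F_4) :
    Good X.D X.h (aa X h2) := by
  have hSA : ∀ n, X.SA n := fun n => by
    rcases n with _ | n
    · exact fun M w h => absurd h (Nat.not_lt_zero _)
    · exact (k_all hA hB X n).2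
  have hSB : ∀ n, X.SB n := fun n => (k_all hA hB X n).1
  obtain ⟨q4, q8⟩ := f3 I W V H X hSA hSB
  have hnot : ∀ z, ¬ X.Ge (aa X h2 z + 1) z := fun z h => by
    rw [ge_iff X h2] at h
    omega
  have hyes : ∀ z, X.Ge (aa X h2 z) z := fun z => (ge_iff X h2 _ _).2 le_rfl
  have p4 : ∀ x y z, X.h x y z ≠ 0 → aa X h2 x ≤ aa X h2 z ∧ aa X h2 y ≤ aa X h2 z := fun x y z h =>
    ⟨(ge_iff X h2 _ _).1 (q4 _ x y z (Or.inl (hyes x)) h), (ge_iff X h2 _ _).1 (q4 _ x y z (Or.inr (hyes y)) h)⟩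
  refine ⟨X.isH, fun z => ⟨fun x y => (q8 _ x y z (hnot z)).1, ?_⟩, fun z => ?_, p4, fun x y z h => ?_⟩
  · obtain ⟨x, y, hxy⟩ := f4 I W V H X hSA hSB _ z (hyes z) (hnot z)
    exact ⟨x, y, fun h => hxy (h _ (by omega))⟩
  · rcases Nat.eq_zero_or_pos (aa X h2 z) with h1 | h1
    · rw [h1]
      obtain ⟨-, -, -, g1, -, g2, -⟩ := hh2 I W H X.M X.cs X.L X.wt X.D
      by_cases hz : z = 1
      · subst hz
        rw [g1]
        exact DegLE.one (by simp)
      · exact (g2 z 1 (Ne.symm hz)).mono (by simp)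
    · obtain ⟨k, hk⟩ := Nat.exists_eq_succ_of_ne_zero h1.ne'
      have := (f1 I W V H X hSA k z (by rw [← Nat.succ_eq_add_one, ← hk]; exact hyes z)).2
      rw [hk]
      push_cast
      exact this
  · obtain ⟨h3, h4⟩ := (q8 _ x y z (hnot z)).2 h
    have h5 : X.h x y z ≠ 0 := fun h6 => by
      rw [gam, h6] at h
      exact h rfl
    rw [ge_iff X h2] at h3 h4
    exact ⟨le_antisymm (p4 x y z h5).1 h3, le_antisymm (p4 x y z h5).2 h4⟩

end

/-! ## Construction of `Ctx` -/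

theorem simple_mem {I V W : Type} [Group W] {M : CoxeterMatrix I} (cs : CoxeterSystem M W) (π : I → V) (i : I) :
    cs.simple i ∈ (iota cs π (π i)).range := by
  refine ⟨(sub M π (π i)).toCoxeterSystem.simple ⟨i, rfl⟩, ?_⟩
  exact CoxeterSystem.lift_apply_simple _ (liftable cs π (π i)) ⟨i, rfl⟩

section

variable {I V W H : Type} [Group W] [Ring H] [Algebra ℤ[T;T⁻¹] H] {M : CoxeterMatrix I}
    {cs : CoxeterSystem M W} {L : W → ℕ} (D : Hecke cs L H) {Γ : SimpleGraph V} {G : V → Subgroup W} {sl : W → ℕ}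

/-- elements of the algebras of adjacent vertices commute -/
theorem comm_supp (h1 : H_1) (e1 : E_1) (gp : GP Γ G sl)
    (len : ∀ x y, sl (x * y) = sl x + sl y → cs.length (x * y) = cs.length x + cs.length y)
    {u v : V} (huv : Γ.Adj u v) {Y Z : H} (hY : ∀ k, D.t.repr Y k ≠ 0 → k ∈ G u)
    (hZ : ∀ k, D.t.repr Z k ≠ 0 → k ∈ G v) : Y * Z = Z * Y := by
  have hone : D.t 1 = 1 := (h1 I W H M cs L D.toHecke0).1
  have hT : ∀ k ∈ G u, ∀ l ∈ G v, D.t k * D.t l = D.t l * D.t k := by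
    intro k hk l hl
    by_cases hk1 : k = 1
    · rw [hk1, hone, one_mul, mul_one]
    by_cases hl1 : l = 1
    · rw [hl1, hone, one_mul, mul_one]
    have hsl : ∀ a b : W, ∀ u v, Γ.Adj u v → a ∈ G u → b ∈ G v → a ≠ 1 → b ≠ 1 → sl (a * b) = sl a + sl b := by
      intro a b u v huv ha hb ha1 hb1
      have hq : IsClq Γ G [a, b] := by
        refine ⟨?_, ?_⟩
        · intro k hk
          simp only [List.mem_cons, List.not_mem_nil, or_false] at hk
          rcases hk with rfl | rfl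
          · exact ⟨ha1, u, ha⟩
          · exact ⟨hb1, v, hb⟩
        · simp only [List.pairwise_cons, List.mem_cons, List.not_mem_nil, or_false, forall_eq]
          exact ⟨⟨u, v, huv, ha, hb⟩, by simp, List.Pairwise.nil⟩
      have := (e1 V W Γ G sl gp).1 _ hq
      simp only [List.prod_cons, List.prod_nil, mul_one, List.length_cons, List.length_nil] at this
      rw [this, gp.syl u a ha ha1, gp.syl v b hb hb1]
    rw [D.mul k l (len k l (hsl k l u v huv hk hl hk1 hl1)),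
      D.mul l k (len l k (hsl l k v u huv.symm hl hk hl1 hk1)), gp.comm u v huv k hk l hl]
  rw [← D.t.linearCombination_repr Y, ← D.t.linearCombination_repr Z, Finsupp.linearCombination_apply,
    Finsupp.linearCombination_apply, Finsupp.sum, Finsupp.sum, Finset.sum_mul_sum, Finset.sum_mul_sum,
    Finset.sum_comm]
  refine Finset.sum_congr rfl fun l hl => Finset.sum_congr rfl fun k hk => ?_
  rw [smul_mul_smul_comm, smul_mul_smul_comm, mul_comm (D.t.repr Y k),
    hT k (hY k (Finsupp.mem_support_iff.1 hk)) l (hZ l (Finsupp.mem_support_iff.1 hl))]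

end

open Classical in
/-- The function `α` on the union of the vertex groups. -/
def alpha {I V W : Type} [Group W] {M : CoxeterMatrix I} (cs : CoxeterSystem M W) (π : I → V)
    (a : ∀ v, (sub M π v).Group → ℕ) (w : W) : ℕ :=
  if h : ∃ p : Σ v, (sub M π v).Group, iota cs π p.1 p.2 = w then a h.choose.1 h.choose.2 else 0

theorem alpha_iota {I V W : Type} [Group W] {M : CoxeterMatrix I} (cs : CoxeterSystem M W) (π : I → V)
    (a : ∀ v, (sub M π v).Group → ℕ) (ha : ∀ v, a v 1 = 0) (hi : ∀ v, Function.Injective (iota cs π v))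
    (hd : ∀ u v, u ≠ v → ∀ g ∈ (iota cs π u).range, g ∈ (iota cs π v).range → g = 1) (v : V)
    (g : (sub M π v).Group) : alpha cs π a (iota cs π v g) = a v g := by
  have h : ∃ p : Σ v, (sub M π v).Group, iota cs π p.1 p.2 = iota cs π v g := ⟨⟨v, g⟩, rfl⟩
  unfold alpha
  rw [dif_pos h]
  have hs := h.choose_spec
  generalize h.choose = p at hs
  obtain ⟨u, k⟩ := p
  simp only at hs ⊢
  by_cases huv : u = v
  · subst huv
    rw [hi u hs]
  · have h1 : iota cs π v g = 1 := hd u v huv _ ⟨k, hs⟩ ⟨g, rfl⟩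
    have hg : g = 1 := hi v (h1.trans (map_one _).symm)
    have hk : k = 1 := hi u ((hs.trans h1).trans (map_one _).symm)
    rw [hg, hk, ha, ha]

theorem exists_ctx (h1 : H_1) (h3 : H_3) (nI : N_I) (nG : N_G) (nL : N_L) (e1 : E_1) (v1 : V_1) (v3 : V_3)
    {I V W H : Type} [Finite V] [Group W] [Ring H] [Algebra ℤ[T;T⁻¹] H] {M : CoxeterMatrix I}
    (cs : CoxeterSystem M W) (L : W → ℕ) (hL : IsWeight cs L) (π : I → V) (Γ : SimpleGraph V)
    (hM : IsGraphProd M π Γ) (D : Hecke cs L H)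
    (hv : ∀ v, GoodSys (sub M π v).toCoxeterSystem (fun g => L (iota cs π v g))) :
    ∃ X : Ctx I W V H, X.M = M ∧ HEq X.cs cs ∧ X.L = L ∧ HEq X.D D := by
  obtain ⟨-, ⟨h, hh⟩, -, -, -⟩ := h3 I W H M cs L hL D
  obtain ⟨sl, gp⟩ := nG I V W M cs π Γ hM
  have len := nL I V W M cs π Γ sl gp
  have hV1 := v1 I V W H M cs L hL π Γ hM D h hh
  choose a N a1 apos aN fN p1 dg q4 q8 lo using fun v => v3 I V W H M cs L hL π Γ hM D h hh v (hv v)
  have hinj : ∀ v, Function.Injective (iota cs π v) := fun v => (nI I V W M cs π Γ hM v).2.1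
  have hα := alpha_iota cs π a a1 hinj gp.disj
  obtain ⟨Nb, hNb⟩ : ∃ Nb : ℕ, ∀ v, N v ≤ Nb := by
    obtain ⟨b, hb⟩ := (Set.finite_range N).bddAbove
    exact ⟨b, fun v => hb ⟨v, rfl⟩⟩
  obtain ⟨C, C1, Cm⟩ := gp.recur H D.c fun u v huv g hg g' hg' =>
    comm_supp D h1 e1 gp len huv ((hV1 u).2.2.1 g hg) ((hV1 v).2.2.1 g' hg')
  refine ⟨{
    M := M, cs := cs, L := L, wt := hL, D := D, h := h, isH := hh, Γ := Γ
    G := fun v => (iota cs π v).range, sl := sl, gp := gp, len := len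
    simp := fun i => ⟨π i, simple_mem cs π i⟩
    α := alpha cs π a
    a_one := ?_, a_pos := ?_, a_bdd := ⟨Nb, ?_⟩, f_bdd := ⟨Nb, ?_⟩
    f_supp := fun v => (hV1 v).1
    supp := fun v => (hV1 v).2.2.1
    cl := fun v => (hV1 v).2.2.2
    p1 := ?_, deg := ?_, p4 := ?_, p8 := ?_, low := ?_
    C := C, C_one := C1, C_mul := Cm }, rfl, HEq.rfl, rfl, HEq.rfl⟩
  · by_cases hne : Nonempty V
    · obtain ⟨v⟩ := hne
      have := hα v 1
      rwa [map_one, a1] at this
    · unfold alpha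
      rw [dif_neg]
      rintro ⟨p, -⟩
      exact hne ⟨p.1⟩
  · rintro v _ ⟨g, rfl⟩ hg
    rw [hα]
    exact apos v g fun h => hg (by rw [h, map_one])
  · rintro v _ ⟨g, rfl⟩
    rw [hα]
    exact (aN v g).trans (hNb v)
  · rintro v _ ⟨g, rfl⟩ _ ⟨g', rfl⟩ k
    exact (fN v g g' k).mono (by exact_mod_cast hNb v)
  · rintro v _ ⟨g, rfl⟩
    rw [hα]
    exact p1 v g
  · rintro v _ ⟨g, rfl⟩ _ ⟨g', rfl⟩ _ ⟨l, rfl⟩
    rw [hα]
    exact dg v g g' l
  · rintro v _ ⟨g, rfl⟩ _ ⟨g', rfl⟩ l hl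
    obtain ⟨l, rfl⟩ := (hV1 v).2.2.2 _ ⟨g, rfl⟩ _ ⟨g', rfl⟩ l hl
    rw [hα, hα, hα]
    exact q4 v g g' l hl
  · rintro v _ ⟨g, rfl⟩ _ ⟨g', rfl⟩ _ ⟨l, rfl⟩ hl
    rw [hα] at hl
    rw [hα, hα, hα]
    exact q8 v g g' l hl
  · rintro v _ ⟨l, rfl⟩
    obtain ⟨g, g', hg⟩ := lo v l
    refine ⟨_, ⟨g, rfl⟩, _, ⟨g', rfl⟩, ?_⟩
    rw [hα]
    exact hg

/-- The class of good systems is closed under graph products. -/
theorem closure (h1 : H_1) (h2 : H_2) (h3 : H_3) (nI : N_I) (nG : N_G) (nL : N_L) (e1 : E_1) (e2 : E_2)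
    (hA : K_A) (hB : K_B) (f1 : F_1) (f3 : F_3) (f4 : F_4) (f5 : F_5) (v1 : V_1) (v3 : V_3)
    {I V W : Type} [Finite V] [Group W] {M : CoxeterMatrix I}
    (cs : CoxeterSystem M W) (L : W → ℕ) (hL : IsWeight cs L) (π : I → V) (Γ : SimpleGraph V)
    (hM : IsGraphProd M π Γ)
    (hv : ∀ v, GoodSys (sub M π v).toCoxeterSystem (fun g => L (iota cs π v g))) : GoodSys cs L := by
  intro H _ _ D
  obtain ⟨X, hXM, hXcs, hXL, hXD⟩ := exists_ctx h1 h3 nI nG nL e1 v1 v3 cs L hL π Γ hM D hv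
  have hB' := f5 I W V H X
  have hG := good_ctx X h2 e2 hA hB f1 f3 f4
  obtain ⟨M', cs', L', wt', D', h', isH', Γ', G', sl', gp', len', simp', α', a_one', a_pos', a_bdd', f_bdd',
    f_supp', supp', cl', p1', deg', p4', p8', low', C', C_one', C_mul'⟩ := X
  simp only at hXM hXL
  subst hXM hXL
  have hcs : cs' = cs := eq_of_heq hXcs
  subst hcs
  have hD : D' = D := eq_of_heq hXD
  subst hD
  exact ⟨hB', h', _, hG⟩

end Pool.Agent.Helper15.RA
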