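import Pool.Agent.Helper15.RA.Asm

/-!
# Project RA (MP_cc6379_al): assembly, part 2
-/

set_option autoImplicit false

open LaurentPolynomial

noncomputable section

namespace Pool.Agent.Helper15.RA

theorem bdd_of_finite {I W H : Type} [Finite W] [Group W] [Ring H] [Algebra ℤ[T;T⁻¹] H] {M : CoxeterMatrix I}
    {cs : CoxeterSystem M W} {L : W → ℕ} (D : Hecke cs L H) : D.Bdd := by
  choose k hk using fun p : W × W × W => exists_degLE (D.t.repr (D.t p.1 * D.t p.2.1) p.2.2)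
  obtain ⟨b, hb⟩ := (Set.finite_range k).bddAbove
  refine ⟨b.toNat, fun x y z => (hk (x, y, z)).mono ?_⟩
  exact (hb ⟨(x, y, z), rfl⟩).trans (Int.self_le_toNat b)

theorem goodSys_dih (h3 : H_3) (rW : R_W) (rQ : R_Q) (rG : R_G) {I W : Type} [Group W] {M : CoxeterMatrix I}
    (cs : CoxeterSystem M W) (L : W → ℕ) (hL : IsWeight cs L) (i j : I) (hij : i ≠ j) (hI : ∀ k, k = i ∨ k = j)
    (hm : 3 ≤ M i j) : GoodSys cs L := by
  intro H _ _ D
  have hfin : Finite W := by
    obtain ⟨-, -, hw, -⟩ := rW I W M cs i j hij hI (by omega)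
    have : Set.univ ⊆ ((fun k => al cs i j k) '' (Set.Iic (M i j))) ∪ ((fun k => al cs j i k) '' (Set.Iic (M i j))) := by
      intro w _
      obtain ⟨k, hk, rfl | rfl⟩ := hw w
      · exact Or.inl ⟨k, hk, rfl⟩
      · exact Or.inr ⟨k, hk, rfl⟩
    exact Set.finite_univ_iff.1 ((((Set.finite_Iic _).image _).union ((Set.finite_Iic _).image _)).subset this)
  refine ⟨bdd_of_finite D, ?_⟩
  obtain ⟨-, ⟨h, hh⟩, -, -, -⟩ := h3 I W H M cs L hL D
  have hm' : 3 ≤ M j i := by rwa [M.symmetric j i]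
  rcases lt_trichotomy (L (cs.simple i)) (L (cs.simple j)) with hlt | heq | hlt
  · exact ⟨h, rG I W H ⟨M, cs, L, hL, D, h, hh, j, i, hij.symm, fun k => (hI k).symm, hm'⟩ hlt⟩
  · exact ⟨h, rQ I W H ⟨M, cs, L, hL, D, h, hh, i, j, hij, hI, hm⟩ heq⟩
  · exact ⟨h, rG I W H ⟨M, cs, L, hL, D, h, hh, i, j, hij, hI, hm⟩ hlt⟩

/-- all the goals used in the assembly -/
structure Facts : Prop where
  h1 : H_1
  h2 : H_2
  h3 : H_3
  hJ : H_J
  nI : N_I
  nG : N_G
  nL : N_L
  e1 : E_1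
  e2 : E_2
  kA : K_A
  kB : K_B
  f1 : F_1
  f3 : F_3
  f4 : F_4
  f5 : F_5
  v1 : V_1
  v3 : V_3
  rW : R_W
  rQ : R_Q
  rG : R_G
  rO : R_O
  xH : X_H
  xB : X_B
  xC : X_C

variable (F : Facts)

include F

theorem closure' {I V W : Type} [Finite V] [Group W] {M : CoxeterMatrix I}
    (cs : CoxeterSystem M W) (L : W → ℕ) (hL : IsWeight cs L) (π : I → V) (Γ : SimpleGraph V)
    (hM : IsGraphProd M π Γ)
    (hv : ∀ v, GoodSys (sub M π v).toCoxeterSystem (fun g => L (iota cs π v g))) : GoodSys cs L :=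
  closure F.h1 F.h2 F.h3 F.nI F.nG F.nL F.e1 F.e2 F.kA F.kB F.f1 F.f3 F.f4 F.f5 F.v1 F.v3 cs L hL π Γ hM hv

theorem goodSys_two {I W : Type} [Finite I] [Group W] {M : CoxeterMatrix I}
    (cs : CoxeterSystem M W) (L : W → ℕ) (hL : IsWeight cs L) (hI : Nat.card I ≤ 2) : GoodSys cs L := by
  classical
  rcases Nat.lt_or_ge (Nat.card I) 2 with h | h
  · have : Subsingleton I := Finite.card_le_one_iff_subsingleton.1 (by omega)
    exact F.rO I W M cs L hL
  · obtain ⟨i, j, hij, hU⟩ := Nat.card_eq_two_iff.1 (le_antisymm hI h)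
    have hall : ∀ k, k = i ∨ k = j := fun k => by
      have : k ∈ ({i, j} : Set I) := by
        rw [hU]
        trivial
      simpa using this
    rcases Nat.lt_or_ge (M i j) 3 with h3 | h3
    · have h1 : M i j ≠ 1 := M.off_diagonal i j hij
      let Γ : SimpleGraph I := SimpleGraph.mk (fun x y => x ≠ y ∧ M x y = 2)
        ⟨fun x y h => ⟨h.1.symm, by rw [M.symmetric]; exact h.2⟩⟩ ⟨fun x h => h.1 rfl⟩
      have hM : IsGraphProd M (id : I → I) Γ := by
        intro x y hxy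
        refine ⟨fun h => h.2, fun h => ?_⟩
        have h2 : M x y ≠ 2 := fun h2 => h ⟨hxy, h2⟩
        have hx := hall x
        have hy := hall y
        simp only [id] at hxy
        have : M x y = M i j := by
          rcases hx with rfl | rfl <;> rcases hy with rfl | rfl
          · exact absurd rfl hxy
          · rfl
          · exact M.symmetric _ _
          · exact absurd rfl hxy
        rw [this] at h2 ⊢
        omega
      refine closure' F cs L hL id Γ hM fun v => ?_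
      have : Subsingleton {k : I // id k = v} := ⟨fun x y => Subtype.ext (x.2.trans y.2.symm)⟩
      exact F.rO _ _ _ _ _ ((F.nI I I W M cs id Γ hM v).2.2 L hL)
    · exact goodSys_dih F.h3 F.rW F.rQ F.rG cs L hL i j hij hall h3

theorem exists_hecke {I W : Type} [Group W] {M : CoxeterMatrix I} (cs : CoxeterSystem M W) (L : W → ℕ)
    (hL : IsWeight cs L) :
    ∃ (H : Type) (_ : Ring H) (_ : Algebra ℤ[T;T⁻¹] H), Nonempty (Hecke cs L H) := by
  obtain ⟨H, iR, iA, ⟨D0⟩⟩ := F.xH I W M cs L hL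
  obtain ⟨D1⟩ := F.xB I W H M cs L D0
  exact ⟨H, iR, iA, F.xC I W H M cs L hL D1⟩

/-- The main theorem. -/
theorem main {I V W : Type} [Finite I] [Finite V] [Group W] (M : CoxeterMatrix I)
    (cs : CoxeterSystem M W) (L : W → ℕ) (hL : IsWeight cs L) (π : I → V) (Γ : SimpleGraph V)
    (hM : IsGraphProd M π Γ)
    (hv : ∀ v, Nat.card {i // π i = v} ≤ 2 ∨
      GoodSys (sub M π v).toCoxeterSystem (fun g => L (iota cs π v g))) :
    (∃ (H : Type) (_ : Ring H) (_ : Algebra ℤ[T;T⁻¹] H), Nonempty (Hecke cs L H)) ∧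
    ∀ (H : Type) [Ring H] [Algebra ℤ[T;T⁻¹] H] (D : Hecke cs L H),
      D.Bdd ∧ ∃ h a, Good D h a ∧ JAssoc h a ∧ ∀ h' a', D.IsH h' → IsA h' a' → h' = h ∧ a' = a := by
  refine ⟨exists_hecke F cs L hL, ?_⟩
  have hG : GoodSys cs L := by
    refine closure' F cs L hL π Γ hM fun v => ?_
    rcases hv v with h | h
    · exact goodSys_two F _ _ ((F.nI I V W M cs π Γ hM v).2.2 L hL) h
    · exact h
  intro H _ _ D
  obtain ⟨hB, h, a, hg⟩ := hG H D
  obtain ⟨-, -, hu, -, hua⟩ := F.h3 I W H M cs L hL D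
  refine ⟨hB, h, a, hg, F.hJ I W H M cs L hL D h a hg, fun h' a' hh' ha' => ?_⟩
  have he : h' = h := hu h' h hh' hg.isH
  subst he
  exact ⟨rfl, hua h' a' a hh' ha' hg.isA⟩

end Pool.Agent.Helper15.RA
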