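import Pool.Agent.Helper15.RA.Stmt

/-!
# Project RA (MP_cc6379_al): the asymptotic ring `J` for graph products of Coxeter groups. Definitions
used in the proof.
-/

set_option autoImplicit false

open LaurentPolynomial

noncomputable section

namespace Pool.Agent.Helper15.RA

/-! ## Syllables -/

/-- The combinatorics of a graph product `W` of the subgroups `G v`; `sl` is the syllable length. -/
structure GP {V W : Type} [Group W] (Γ : SimpleGraph V) (G : V → Subgroup W) (sl : W → ℕ) : Prop where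
  comm : ∀ u v, Γ.Adj u v → ∀ g ∈ G u, ∀ h ∈ G v, g * h = h * g
  disj : ∀ u v, u ≠ v → ∀ g ∈ G u, g ∈ G v → g = 1
  gen : ∀ w, w ≠ 1 → ∃ v, ∃ g ∈ G v, g ≠ 1 ∧ sl (g⁻¹ * w) + 1 = sl w
  one : sl 1 = 0
  inv : ∀ w, sl w⁻¹ = sl w
  mul : ∀ x y, sl (x * y) ≤ sl x + sl y
  syl : ∀ v, ∀ g ∈ G v, g ≠ 1 → sl g = 1
  coset : ∀ v w, ∃ g ∈ G v, ∀ h ∈ G v, h ≠ 1 → sl (h * (g * w)) = sl (g * w) + 1
  dia : ∀ u v, u ≠ v → ∀ g ∈ G u, ∀ h ∈ G v, ∀ w, sl (g * w) + 1 = sl w → sl (h * w) + 1 = sl w →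
    Γ.Adj u v ∧ sl (h * (g * w)) + 2 = sl w
  recur : ∀ (N : Type) [Monoid N] (f : W → N),
    (∀ u v, Γ.Adj u v → ∀ g ∈ G u, ∀ h ∈ G v, f g * f h = f h * f g) →
    ∃ C : W → N, C 1 = 1 ∧ ∀ v, ∀ g ∈ G v, g ≠ 1 → ∀ w, sl (g * w) = sl w + 1 → C (g * w) = f g * C w

/-- `K` is a list of nontrivial elements of the groups of pairwise adjacent vertices (a clique of syllables). -/
def IsClq {V W : Type} [Group W] (Γ : SimpleGraph V) (G : V → Subgroup W) (K : List W) : Prop :=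
  (∀ k ∈ K, k ≠ 1 ∧ ∃ v, k ∈ G v) ∧ K.Pairwise fun k l => ∃ u v, Γ.Adj u v ∧ k ∈ G u ∧ l ∈ G v

/-- All the data of a graph product `W` whose vertex groups `G v` have the properties P1, P4, P8. -/
structure Ctx (I W V H : Type) [Group W] [Ring H] [Algebra ℤ[T;T⁻¹] H] where
  M : CoxeterMatrix I
  cs : CoxeterSystem M W
  L : W → ℕ
  wt : IsWeight cs L
  D : Hecke cs L H
  h : W → W → W →₀ ℤ[T;T⁻¹]
  isH : D.IsH h
  Γ : SimpleGraph V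
  G : V → Subgroup W
  sl : W → ℕ
  gp : GP Γ G sl
  /-- `ℓ` is additive if `sl` is -/
  len : ∀ x y, sl (x * y) = sl x + sl y → cs.length (x * y) = cs.length x + cs.length y
  /-- every simple reflection is in some `G v` -/
  simp : ∀ i, ∃ v, cs.simple i ∈ G v
  /-- the function `a` of the vertex groups -/
  α : W → ℕ
  a_one : α 1 = 0
  a_pos : ∀ v, ∀ g ∈ G v, g ≠ 1 → 0 < α g
  a_bdd : ∃ N : ℕ, ∀ v, ∀ g ∈ G v, α g ≤ N
  f_bdd : ∃ N : ℕ, ∀ v, ∀ g ∈ G v, ∀ g' ∈ G v, ∀ k, DegLE N (D.t.repr (D.t g * D.t g') k)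
  f_supp : ∀ v, ∀ g ∈ G v, ∀ g' ∈ G v, ∀ k, D.t.repr (D.t g * D.t g') k ≠ 0 → k ∈ G v
  supp : ∀ v, ∀ g ∈ G v, ∀ y, D.t.repr (D.c g) y ≠ 0 → y ∈ G v
  cl : ∀ v, ∀ g ∈ G v, ∀ g' ∈ G v, ∀ l, h g g' l ≠ 0 → l ∈ G v
  p1 : ∀ v, ∀ g ∈ G v, DegLE (-(α g : ℤ)) (D.t.repr (D.c g) 1)
  deg : ∀ v, ∀ g ∈ G v, ∀ g' ∈ G v, ∀ l ∈ G v, DegLE (α l) (h g g' l)
  p4 : ∀ v, ∀ g ∈ G v, ∀ g' ∈ G v, ∀ l, h g g' l ≠ 0 → α g ≤ α l ∧ α g' ≤ α l
  p8 : ∀ v, ∀ g ∈ G v, ∀ g' ∈ G v, ∀ l ∈ G v, (h g g' l).coeff (α l) ≠ 0 → α g = α l ∧ α g' = α l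
  low : ∀ v, ∀ l ∈ G v, ∃ g ∈ G v, ∃ g' ∈ G v, (h g g' l).coeff (α l) ≠ 0
  /-- the monomial basis -/
  C : W → H
  C_one : C 1 = 1
  C_mul : ∀ v, ∀ g ∈ G v, g ≠ 1 → ∀ w, sl (g * w) = sl w + 1 → C (g * w) = D.c g * C w

namespace Ctx

variable {I W V H : Type} [Group W] [Ring H] [Algebra ℤ[T;T⁻¹] H] (X : Ctx I W V H)

/-- `K` is a clique of syllables. -/
def Clq (K : List W) : Prop := IsClq X.Γ X.G K

/-- `a(K)` -/
def aK (K : List W) : ℕ := (K.map X.α).sum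

/-- `a'(w) ≥ m` -/
def Ge (m : ℕ) (w : W) : Prop :=
  ∃ (x : W) (K : List W) (y : W), X.Clq K ∧ w = x * K.prod * y ∧ X.sl w = X.sl x + K.length + X.sl y ∧ m ≤ X.aK K

/-- The ideal `I_M`. -/
def Idl (M : ℕ) : Submodule ℤ[T;T⁻¹] H := Submodule.span ℤ[T;T⁻¹] {Z | ∃ w, X.Ge (M + 1) w ∧ Z = X.C w}

/-- The `T`-coordinates of `Z` have degree at most `k`, and those outside `{w | a'(w) ≤ M, sl w ≤ n}` vanish. -/
def Low (M n : ℕ) (k : ℤ) (Z : H) : Prop :=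
  ∀ w, DegLE k (X.D.t.repr Z w) ∧ (X.D.t.repr Z w ≠ 0 → ¬ X.Ge (M + 1) w ∧ X.sl w ≤ n)

/-- `Lam M n k` -/
def Lam (M n : ℕ) (k : ℤ) (Z : H) : Prop := ∃ l, X.Low M n k l ∧ Z - l ∈ X.Idl M

/-- `LamT M n k` -/
def LamT (M n : ℕ) (k : ℤ) (Z : H) : Prop :=
  ∃ l, X.Low M n k l ∧ Z - l ∈ X.Idl M ∧ DegLE (k - M) (X.D.t.repr (Z - l) 1)

/-- `c_k` (flag `false`) or `c_k - p_(1,k)` (flag `true`) -/
def e (p : W × Bool) : H :=
  if p.2 then X.D.c p.1 - X.D.t.repr (X.D.c p.1) 1 • (1 : H) else X.D.c p.1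

open Classical in
/-- `ε_M(x,K,y)` -/
def eps (M : ℕ) (x : W) (K : List W) (y : W) : ℤ :=
  if ¬ X.Ge M (x * K.prod) ∨ ¬ X.Ge M (K.prod * y) then 1 else 0

/-- `x . d(K)` and `d(K) . y` are reduced and `K` is a clique. -/
def Red (x : W) (K : List W) (y : W) : Prop :=
  X.Clq K ∧ X.sl (x * K.prod) = X.sl x + K.length ∧ X.sl (K.prod * y) = K.length + X.sl y

/-- The statement `(b)` for `x`, `K` (with flags), `y`. -/
def PB (M : ℕ) (x : W) (F : List (W × Bool)) (y : W) : Prop :=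
  X.LamT M (X.sl x + F.length + X.sl y) ((M : ℤ) - X.aK (F.map Prod.fst) - X.eps M x (F.map Prod.fst) y)
    (X.D.t x * (F.map X.e).prod * X.D.t y)

/-- `(b)` for all `x, K, y` with fewer than `n` syllables. -/
def SB (n : ℕ) : Prop :=
  ∀ (M : ℕ) (x : W) (F : List (W × Bool)) (y : W), X.Red x (F.map Prod.fst) y →
    X.sl x + F.length + X.sl y < n → X.PB M x F y

/-- `(a)` for all `w` with fewer than `n` syllables. -/
def SA (n : ℕ) : Prop :=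
  ∀ (M : ℕ) (w : W), X.sl w < n → X.LamT M (X.sl w) 0 (X.D.t w) ∧
    (X.Ge (M + 1) w → X.LamT M (X.sl w) (-1) (X.D.t w))

end Ctx

end Pool.Agent.Helper15.RA
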