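import Pool.Agent.Helper15.RA.GoalsH

/-!
# Project RA (MP_cc6379_al): goals, part 2. The key induction, its consequences, the vertex data.
-/

set_option autoImplicit false

open LaurentPolynomial

noncomputable section

namespace Pool.Agent.Helper15.RA

/-! ## K: the key induction

`X : Ctx`, `T_w = X.D.t w`, `d = K.prod`, `c°_k = X.e (k, true) = c_k - p_(1,k)`, `c_k = X.e (k, false)`. -/

/-- PACKET RA-KE (2 h). From `H_2`, `E_1`. Expansion Lemma.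

PROOF. Induction on `K`, for all `x`. `K = []`: `T_x T_y = T_(x y)` (`len`, `mul`), `Z = 0`. `K = k :: K'`, `k ∈ G u`, `k ≠ 1`, `d' = K'.prod`: `c°_k = ∑_(h ∈ G u, h ≠ 1) p_h T_h` (`supp`; `p_1` is removed and `T_1 = 1`),
`p_k = 1`, `deg p_h ≤ -1` and `ℓ(h) < ℓ(k)` for `h ≠ k` with `p_h ≠ 0` (`H_2`). For such `h` (and `h = k`): `sl (x h (d' y)) = sl x + 1 + sl (d' y)` (`E_1` (3), replace `k` by `h`), so `T_x T_h = T_(x h)`, and the
induction hypothesis for `x h`, `K'`: `T_x T_h ∏' T_y = T_(x h d' y) + Z_h`. Here `ℓ(x h d' y) = ℓ(x) + ℓ(h) + ℓ(d' y)` (`len`), smaller than `ℓ(x k d' y)` for `h ≠ k`. Sum over `h`. -/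
def K_E : Prop := ∀ (I W V H : Type) [Group W] [Ring H] [Algebra ℤ[T;T⁻¹] H] (X : Ctx I W V H) (x : W)
    (K : List W) (y : W), X.Clq K → X.sl (x * K.prod * y) = X.sl x + K.length + X.sl y →
  ∀ w, DegLE (-1) (X.D.t.repr (X.D.t x * (K.map fun k => X.e (k, true)).prod * X.D.t y -
      X.D.t (x * K.prod * y)) w) ∧
    (X.D.t.repr (X.D.t x * (K.map fun k => X.e (k, true)).prod * X.D.t y - X.D.t (x * K.prod * y)) w ≠ 0 →
      X.sl w = X.sl x + K.length + X.sl y ∧ X.cs.length w < X.cs.length (x * K.prod * y))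

/-- PACKET RA-KT (2 h). From `H_1`, `E_1`. Tau Lemma.

PROOF. Claim (0): let `h :: K` be a clique, `Red x (h :: K) y`. Then `τ (T_(x h) ∏_(k ∈ K) c_k T_y) = 0`. Induction on `K` for all `x`. `K = []`: `τ (T_(x h) T_y) = 0` unless `x h y = 1` (`H_1`); then
`x h = y⁻¹`, `h y = x⁻¹`, `sl y = sl x + 1`, `sl x = 1 + sl y`, impossible. `K = k :: K'`, `k ∈ G u`: `c_k = ∑_(l ∈ G u) p_l T_l`. `l = 1`: `T_1 = 1`, induction for `h :: K'`. `l ≠ 1`: `T_(x h) T_l = T_(x h l) = T_(x l h)`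
(`sl (x h l) = sl x + 2` by replacement of `k` in `x h k`), and the induction hypothesis for `x l`, `h :: K'`, `y`: `Red (x l) (h :: K') y` holds: `x l h d' = x h l d'` has `sl = sl x + 1 + |h :: K'|` by replacement
in `x (h k d')` (permute).
Main claim: induction on `K`. `K = []`: `τ (T_x T_y) ∈ {0, 1}`. `K = k :: K'`: `c_k = p_1 + ∑_(h ≠ 1) p_h T_h`. First: `deg p_1 ≤ -α k` and the induction hypothesis for `K'` (`Red x K' y`). The others: `T_x T_h ∏' T_y =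
T_(x h) ∏' T_y` has `τ = 0` by (0) (`Red x (h :: K') y` by replacement). -/
def K_T : Prop := ∀ (I W V H : Type) [Group W] [Ring H] [Algebra ℤ[T;T⁻¹] H] (X : Ctx I W V H) (x : W)
    (K : List W) (y : W), X.Red x K y →
  DegLE (-(X.aK K : ℤ)) (X.D.t.repr (X.D.t x * (K.map X.D.c).prod * X.D.t y) 1)

/-- PACKET RA-KD (2 h). From `E_1`, `E_2`. Difference Lemma.

PROOF. First `F = F₁ ++ (k,b) :: F₂`, `F' = F₁ ++ (k,b') :: F₂`, `b ≠ b'`: `X.e (k,b) - X.e (k,b') = ± p • 1`, `p = D.t.repr (c_k) 1`, `deg p ≤ -α k` (`p1`). The difference is `± p • (T_x * ∏ over F₁ ++ F₂ * T_y)`. `F'' := F₁ ++ F₂`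
has the clique `K'' = K₁ ++ K₂`, `Red x K'' y` (`x K.prod = x K''.prod k`, and `k` first on the other side, permutations: `E_1`), `sl x + |F''| + sl y = sl x + |F| + sl y - 1 < n`, so `SB n` gives
`LamT M (sl x + |F| + sl y - 1) (M - a(K) + α k - ε'')`, and `ε'' ≥ ε` (`eps_le` with `E_2` (3)). Multiply by `p` (`LamT.smul_le`). General case: change the flags one after the other, from left to right (induction on the list, with
a common prefix). -/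
def K_D : Prop := ∀ (I W V H : Type) [Group W] [Ring H] [Algebra ℤ[T;T⁻¹] H] (X : Ctx I W V H) (n : ℕ), X.SB n →
  ∀ (M : ℕ) (x : W) (F F' : List (W × Bool)) (y : W), F.map Prod.fst = F'.map Prod.fst →
    X.Red x (F.map Prod.fst) y → X.sl x + F.length + X.sl y ≤ n →
    X.LamT M (X.sl x + F.length + X.sl y - 1) ((M : ℤ) - X.aK (F.map Prod.fst) - X.eps M x (F.map Prod.fst) y)
      (X.D.t x * (F.map X.e).prod * X.D.t y - X.D.t x * (F'.map X.e).prod * X.D.t y)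

/-- PACKET RA-KA (2 h). From `K_E`, `K_T`, `K_D`, `I_1`, `I_2`, `E_1`, `E_2`. `(b)` for fewer than `n` syllables implies `(a)` for `≤ n` syllables.

PROOF. Fix `M`. Strong induction on `ℓ(w)`, `sl w ≤ n`. If not `Ge (M+1) w`: `T_w` is `Low M (sl w) 0`. Otherwise `w = x d y` reduced, `d = K.prod`, `a(K) ≥ M+1`, `N := sl w = sl x + |K| + sl y ≤ n` (and `Red x K y`: subadditivity and
`sl d = |K|`). (1) `T_x ∏ c_k T_y ∈ I_M`: `∏ c_k = C_d` (`I_1`), `Ge (M+1) d`, `I_2`. By `K_T` its `τ` has degree `≤ -a(K) ≤ -1 - M`: so it is in `LamT M N (-1)` (`LamT.of_idl`). (2) `K_D` for the flags all `false` and all `true`: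
the difference is in `LamT M (N-1) (M - a(K) - ε)`, in `LamT M N (-1)` (`M - a(K) - ε ≤ -1`). So `T_x ∏ c°_k T_y ∈ LamT M N (-1)`. (3) `K_E`: `T_x ∏ c°_k T_y - T_w = ∑ β_z T_z` with `deg β_z ≤ -1`, `sl z = N`, `ℓ(z) < ℓ(w)`: by induction `T_z ∈ LamT M N 0`,
so the sum is in `LamT M N (-1)`. Hence `T_w ∈ LamT M N (-1)`, also in `LamT M N 0`. -/
def K_A : Prop := ∀ (I W V H : Type) [Group W] [Ring H] [Algebra ℤ[T;T⁻¹] H] (X : Ctx I W V H) (n : ℕ),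
  X.SB n → X.SA (n + 1)

/-- PACKET RA-KP (1.5 h). From `H_2`, `H_3`. The product `T_g T_h` inside a vertex group, in terms of the `c_l`.

PROOF. Inside `G u`: `T_g = ∑_(g' ∈ G u) q_(g') c_(g')` with `q_g = 1` and `deg q_(g') ≤ -1` for `g' ≠ g`: this is `H_3`, and the `g'` are in `G u` by strong induction on `ℓ(g)`: `T_g = c_g - ∑_(y ≠ g) p_y T_y`, `y ∈ G u` (`supp`),
`ℓ(y) < ℓ(g)`. So `T_g T_h = ∑ q_(g') q'_(h') c_(g') c_(h')`, `η_l = ∑ q_(g') q'_(h') h_(g',h',l)`: `l ∈ G u` by `cl`, `deg η_l ≤ α l` by `deg`, and the coefficient of `v^(α l)` of `η_l` is the one of `h_(g,h,l)` (all other terms have a factor of degree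
`≤ -1`); if it is `≠ 0` then `p8`. -/
def K_P : Prop := ∀ (I W V H : Type) [Group W] [Ring H] [Algebra ℤ[T;T⁻¹] H] (X : Ctx I W V H) (u : V) (g h : W),
  g ∈ X.G u → h ∈ X.G u → ∃ η : W →₀ ℤ[T;T⁻¹], X.D.t g * X.D.t h = η.sum (fun l p => p • X.D.c l) ∧
    ∀ l, (η l ≠ 0 → l ∈ X.G u) ∧ DegLE (X.α l) (η l) ∧
      (l ∈ X.G u → (η l).coeff (X.α l) = (X.h g h l).coeff (X.α l)) ∧
      ((η l).coeff (X.α l) ≠ 0 → X.α g = X.α l ∧ X.α h = X.α l)

/-- PACKET RA-KB (3 h). From `K_E`, `K_T`, `K_D`, `K_P`, `I_1`, `I_2`, `E_1`, `E_2`. The step for `(b)`.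

PROOF. Let `F` have the clique `K`, `Red x K y`, `N := sl x + |K| + sl y ≤ n`, `k₀ := M - a(K) - ε`. If `N < n` this is `SB n`. By `K_D` (difference of two flaggings is in `LamT M (N-1) k₀ ⊂ LamT M N k₀`) it suffices to treat ONE flagging of `K`.
Case 1: `sl (x d y) = N`, `a(K) ≥ M+1`. Then `Ge M (x d)` and `Ge M (d y)` (`E_2`), so `ε = 0`. Flags all `false`: `T_x ∏ c_k T_y ∈ I_M` (as in `K_A`), `τ` of degree `≤ -a(K) = k₀ - M` (`K_T`): `LamT.of_idl`.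
Case 2: `sl (x d y) = N`, `a(K) ≤ M`. `k₀ ≥ 0`: if `ε = 1` then not `Ge M (x d)` (or not `Ge M (d y)`), but `Ge (a(K)) (x d)`, so `a(K) < M`. Flags all `true`: by `K_E` it is `T_(x d y) + ∑ β_z T_z`, `deg β_z ≤ -1`, `sl z = N`; `SA (n+1)`: all in `LamT M N 0`.
Case 3: `sl (x d y) ≠ N`. Flags all `false`. `E_1` (4): `x = x' g`, `y = h y'`, `g, h ∈ G u`, `u` adjacent to the vertices of all `k ∈ K`. `T_x = T_(x') T_g`, `T_y = T_h T_(y')` and `T_h` commutes with all `c_k`, `k ∈ K` (`c_k` is a combination of `T_l`, `l ∈ G v`, `v` adjacent to `u`, and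
`T_h T_l = T_(h l) = T_(l h) = T_l T_h` since `sl (h l) = 2` for `l ≠ 1`). So `T_x ∏ c_k T_y = T_(x') (T_g T_h) ∏ c_k T_(y') = ∑_(l ∈ G u) η_l T_(x') c_l ∏ c_k T_(y')` (`K_P`).
`l ≠ 1`: `l :: K` is a clique, `Red x' (l :: K) y'` (`x' g d = x d`, replacement of `g` by `l`: `x' l d = (x' d) l`, `E_2` (1),(2) or `E_1` (3)), `sl x' + |K| + 1 + sl y' = N - 1 < n`, so `SB n`: `T_(x') c_l ∏ c_k T_(y') ∈ LamT M (N-1) (M - α l - a(K) - ε')`,
`ε' = eps M x' (l :: K) y'`. If the coefficient of `v^(α l)` of `η_l` is `0`, then `deg η_l ≤ α l - 1`, and `-1 - ε' ≤ -ε`. If it is `≠ 0` then `α g = α l = α h` and by `E_2` (1), (2) (both directions) `Ge M (x' l d) ↔ Ge M (x' g d)`, i.e. `↔ Ge M (x d)`, and `Ge M (l d y') ↔ Ge M (d y)`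
(`x' l d = (x' d) l`, `l d y'`), so `ε' = ε` (only `ε ≤ ε'` is needed). `l = 1`: `c_1 = 1`, `deg η_1 ≤ α 1 = 0`, `Red x' K y'`, `N - 2 < n`: `LamT M (N-2) (M - a(K) - ε'')`, `ε'' = eps M x' K y' ≥ ε` as `Ge M (x' d) → Ge M (x' d g) = Ge M (x d)`. -/
def K_B : Prop := ∀ (I W V H : Type) [Group W] [Ring H] [Algebra ℤ[T;T⁻¹] H] (X : Ctx I W V H) (n : ℕ),
  X.SB n → X.SA (n + 1) → X.SB (n + 1)

/-! ## F: consequences. `X.SA n`, `X.SB n` hold for all `n`. -/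

/-- PACKET RA-F1 (1 h). From `H_2`, `I_3`. `Ge (M+1) w → c_w ∈ I_M`, and P1.

PROOF. `c_w = T_w + ∑_(y ≠ w) p_y T_y`, `deg p_y ≤ -1`: with `SA` (`T_w ∈ LamT (-1)`, `T_y ∈ LamT 0`): `c_w ∈ LamT M n (-1)` for `n` large: `c_w - l ∈ I_M`, `l` `Low M n (-1)`, `deg τ(c_w - l) ≤ -1 - M`. `I_M` is stable under `bar` (it fixes the `C_w`, semilinear), so
`c_w - bar l ∈ I_M`, `l - bar l ∈ I_M`, and `l = 0` by `I_3`. -/
def F_1 : Prop := ∀ (I W V H : Type) [Group W] [Ring H] [Algebra ℤ[T;T⁻¹] H] (X : Ctx I W V H),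
  (∀ n, X.SA n) → ∀ (M : ℕ) (w : W), X.Ge (M + 1) w →
    X.D.c w ∈ X.Idl M ∧ DegLE (-((M : ℤ) + 1)) (X.D.t.repr (X.D.c w) 1)

/-- PACKET RA-F2 (1.5 h). From `H_2`, `I_3`, `F_1`. The `c`-coordinates of the elements of `Lam M n k`.

PROOF. For `¬ Ge (M+1) z`: `c_z - T_z = ∑_(y ≠ z) p_y T_y`, `deg p_y ≤ -1`, `T_y ∈ Lam M (sl y) 0` (`SA`). Let `Z = ∑_z β_z c_z ∈ Lam M n k`. Claim: if `j > k` and `deg β_z ≤ j` for all `z` with `¬ Ge (M+1) z`, then `deg β_z ≤ j - 1` for these `z`. By `F_1` the terms with `Ge (M+1) z` are in `I_M`. So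
`∑_(¬ Ge) β_z T_z ∈ Lam M n' (j-1)` for some `n'`, i.e. `∑_(¬ Ge) β_z T_z - l ∈ I_M` with `l` `Low M n' (j-1)`; by `I_3` `∑_(¬ Ge) β_z T_z = l`. Start with a large `j` (`exists_degLE`, finite support) and go down to `k`.
Second: `Z ∈ I_M` is in `Lam M n k` for all `k`, so `β_z = 0` (`eq_zero_of_degLE`). -/
def F_2 : Prop := ∀ (I W V H : Type) [Group W] [Ring H] [Algebra ℤ[T;T⁻¹] H] (X : Ctx I W V H),
  (∀ n, X.SA n) → ∀ (M : ℕ) (β : W →₀ ℤ[T;T⁻¹]),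
    (∀ (n : ℕ) (k : ℤ), X.Lam M n k (β.sum fun z p => p • X.D.c z) → ∀ z, ¬ X.Ge (M + 1) z → DegLE k (β z)) ∧
    (β.sum (fun z p => p • X.D.c z) ∈ X.Idl M → ∀ z, ¬ X.Ge (M + 1) z → β z = 0)

/-- PACKET RA-F3 (1.5 h). From `H_2`, `I_2`, `F_1`, `F_2`. P4 and the upper bounds.

PROOF. (1) `m = 0`: `E_2`. `m = M+1`: `c_x ∈ I_M` or `c_y ∈ I_M` (`F_1`), `c_x c_y ∈ I_M` (`I_2`), `F_2`. (2) `SB` with `F = []`: `T_x T_y ∈ LamT M (sl x + sl y) (M - eps M x [] y)` where `eps = 1` if `¬ Ge M x` or `¬ Ge M y` (`x * [].prod = x`). `c_x c_y = T_x T_y + ` terms `p T_(x') T_(y')` with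
`deg p ≤ -1`, which are in `Lam M n (M-1)`. So `c_x c_y ∈ Lam M n (M - eps)`, and by `F_2` `deg h_(x,y,z) ≤ M - eps` for `¬ Ge (M+1) z`. -/
def F_3 : Prop := ∀ (I W V H : Type) [Group W] [Ring H] [Algebra ℤ[T;T⁻¹] H] (X : Ctx I W V H),
  (∀ n, X.SA n) → (∀ n, X.SB n) →
    (∀ m x y z, X.Ge m x ∨ X.Ge m y → X.h x y z ≠ 0 → X.Ge m z) ∧
    (∀ (M : ℕ) (x y z : W), ¬ X.Ge (M + 1) z → DegLE M (X.h x y z) ∧
      ((X.h x y z).coeff M ≠ 0 → X.Ge M x ∧ X.Ge M y))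

/-- PACKET RA-F4 (4 h). From `H_1`, `H_2`, `H_3`, `K_E`, `K_D`, `K_P`, `E_1`, `E_2`, `F_1`, `F_2`. The lower bound `a(z) ≥ a'(z)`.

PROOF. Let `b` be the basis `c`, `ψ(Z) := ` coefficient of `v^M` in `b.repr Z z` (additive). (i) `ψ = 0` on `Lam M n (M-1)` (`F_2`), on `I_M`, and on `Lam M n M` for `n < sl z` (a `Low M n M` element is `∑ β_w T_w` with `w ≠ z`, `deg β_w ≤ M`, and `b.repr T_w z` has degree `≤ -1`, `H_3`). (ii) for `deg p ≤ M`:
`ψ(p • T_w) = ` (coefficient of `v^M` of `p`) if `w = z`, `0` otherwise.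
`Ge M z`: `z = x d y` reduced, `d = K.prod`, `a(K) ≥ M`, and `a(K) ≤ M` by `¬ Ge (M+1) z`. Let `K = [k_1,..,k_r]`, `k_i ∈ G u_i`. `low`: `g_i, h_i ∈ G u_i` with `γ_i := (h g_i h_i k_i).coeff (α k_i) ≠ 0`; `α g_i = α h_i = α k_i > 0` (`p8`), so `g_i, h_i ≠ 1`. Take `x₁ := x ∏ g_i`, `y₁ := (∏ h_i) y` (reduced products by replacement). Then
`ψ(c_(x₁) c_(y₁)) = (h x₁ y₁ z).coeff M`, and `c_(x₁) c_(y₁) - T_(x₁) T_(y₁) ∈ Lam M n (M-1)` (as in `F_3`). `T_(x₁) T_(y₁) = T_x (∏ T_(g_i)) (∏ T_(h_i)) T_y = T_x ∏ (T_(g_i) T_(h_i)) T_y` (elements of different vertices commute). Put `e_i := T_(g_i) T_(h_i) = ∑_(l ∈ G u_i) η^i_l c_l` (`K_P`): `deg η^i_l ≤ α l`; the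
coefficient of `v^(α l)` of `η^i_l` is `≠ 0` only if `α l = α k_i`; for `l = k_i` it is `γ_i`.
Claim: `ψ(T_x ∏ e_i T_y) = ∏ γ_i`. Expand (multilinear): the sum over all tuples `l_i ∈ G u_i` of `ψ(∏ η^i_(l_i) • T_x ∏ c_(l_i) T_y)`. (A) If for some `i` the coefficient of `v^(α l_i)` of `η^i_(l_i)` is `0`: `deg ∏ η ≤ ∑ α l_i - 1`, and `T_x ∏ c_(l_i) T_y ∈ Lam M n (M - ∑ α l_i)` by `SB` (drop the `l_i = 1`: `c_1 = 1`, `α 1 = 0`; `Red` by
replacement): in `Lam M n (M-1)`, `ψ = 0`. (B) Otherwise `α l_i = α k_i > 0`, `l_i ≠ 1`, `∑ α l_i = M`. `T_x ∏ c_(l_i) T_y = T_x ∏ c°_(l_i) T_y + Lam M (sl z - 1) 0` (`K_D`, `M - a(l) - ε ≤ 0`) `= T_(x d(l) y) + ∑ β_w T_w + ..` with `deg β_w ≤ -1` (`K_E`), `∑ β_w T_w ∈ Lam M (sl z) (-1)` by `SA`. Multiply by `∏ η` of degree `≤ M`: by (i) and (ii)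
`ψ = (∏ γ) if x d(l) y = z, else 0`, with `∏ γ` the product of the top coefficients; and `x d(l) y = z` iff `d(l) = d(k)` iff `l_i = k_i` for all `i` (induction: `l_1⁻¹ k_1 ∈ G u_1` ..., `disj`/`E_1`).
In Lean: generalize to a prefix of single terms and a suffix of the `e_i` and do induction on the suffix. `∏ γ_i ≠ 0`. -/
def F_4 : Prop := ∀ (I W V H : Type) [Group W] [Ring H] [Algebra ℤ[T;T⁻¹] H] (X : Ctx I W V H),
  (∀ n, X.SA n) → (∀ n, X.SB n) → ∀ (M : ℕ) (z : W), X.Ge M z → ¬ X.Ge (M + 1) z →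
    ∃ x y, (X.h x y z).coeff M ≠ 0

/-- PACKET RA-F5 (2 h). From `H_1`, `E_1`. Boundedness (B).

PROOF. Let `N` be as in `f_bdd`. Claim: `Red x K y` implies that all coefficients of `T_x T_(K.prod) T_y` have degree `≤ N (|V| - |K|)`; note `|K| ≤ |V|` (`V` finite: distinct vertices). Induction on `sl x + sl y`. If `sl (x d y) = sl x + |K| + sl y`: it is `T_(x d y)`. Otherwise `E_1` (4): `x = x' g`, `y = h y'`;
`T_h` commutes with `T_d`; `T_g T_h = ∑_(k ∈ G u) f_k T_k` (`f_supp`), `deg f_k ≤ N`, and `f_1 ∈ {0,1}` (`H_1`). `T_x T_d T_y = ∑_k f_k T_(x') T_k T_d T_(y')`; `k ≠ 1`: `T_k T_d = T_(k d)`, induction for `(x', k :: K, y')` (`|k :: K| ≤ |V|`); `k = 1`: induction for `(x', K, y')`. For `K = []` this bounds all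
`f_(x,y,z)` by `N |V|`. -/
def F_5 : Prop := ∀ (I W V H : Type) [Finite V] [Group W] [Ring H] [Algebra ℤ[T;T⁻¹] H] (X : Ctx I W V H), X.D.Bdd

/-! ## V: the data of the vertex groups -/

/-- PACKET RA-V1 (2 h). From `H_1`, `H_2`, `H_3`, `N_I`. Supports. Let `R` be the range of `iota cs π v`.

PROOF. (1) `T_g T_(g')` for `g = iota a`: induction on the length of `a` (`N_I`: lengths are preserved): `T_(s_i) T_y` with `y ∈ R`, `π i = v`, has support `{y, s_i y} ⊂ R`. (2) `bar T_g` has support in `R` for `g ∈ R`: `bar T_(s_i w) = (T_(s_i) - ξ_i) bar T_w` (see `H_2`). Let `g ∈ R`, `c_g = ∑ p_y T_y`. Suppose some `y ∉ R` has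
`p_y ≠ 0`; take such a `y₀` of maximal length among the `y ∉ R`. The coefficient of `T_(y₀)` in `bar c_g = ∑ invert p_y bar T_y`: the terms with `y ∈ R` do not contribute, the terms `y ∉ R`, `y ≠ y₀` have `ℓ(y) ≤ ℓ(y₀)` and do not contribute (`H_2`), so it is `invert p_(y₀)`. So `p_(y₀) = invert p_(y₀)` with degree `≤ -1`: `0`.
(3) `c_g c_(g')` has `T`-support in `R`; the `c`-expansion of an element with `T`-support in `R` only involves `c_y`, `y ∈ R` (take the longest `y` in the `T`-support, subtract `coefficient • c_y`). With the uniqueness of `h`. -/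
def V_1 : Prop := ∀ (I V W H : Type) [Group W] [Ring H] [Algebra ℤ[T;T⁻¹] H] (M : CoxeterMatrix I)
    (cs : CoxeterSystem M W) (L : W → ℕ), IsWeight cs L → ∀ (π : I → V) (Γ : SimpleGraph V), IsGraphProd M π Γ →
  ∀ (D : Hecke cs L H) (h : W → W → W →₀ ℤ[T;T⁻¹]), D.IsH h → ∀ v,
  (∀ g ∈ (iota cs π v).range, ∀ g' ∈ (iota cs π v).range, ∀ k, D.t.repr (D.t g * D.t g') k ≠ 0 →
    k ∈ (iota cs π v).range) ∧
  (∀ g ∈ (iota cs π v).range, ∀ k, D.t.repr (D.bar (D.t g)) k ≠ 0 → k ∈ (iota cs π v).range) ∧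
  (∀ g ∈ (iota cs π v).range, ∀ k, D.t.repr (D.c g) k ≠ 0 → k ∈ (iota cs π v).range) ∧
  (∀ g ∈ (iota cs π v).range, ∀ g' ∈ (iota cs π v).range, ∀ k, h g g' k ≠ 0 → k ∈ (iota cs π v).range)

/-- PACKET RA-V2 (2.5 h). From `V_1`, `N_I`, `H_1`, `H_2`. The Hecke algebra of a block, inside `H`.

PROOF. `Hv` := the `ℤ[v,v⁻¹]`-subalgebra of `H` with carrier `{Z | the T-support of Z is in R}`, `R` = range of `iota` (closed under products by `V_1` (1), contains `1 = T_1`); `j` = inclusion. Basis `t g := T_(iota g)` (`iota` injective; e.g. `Basis.mk` or via `Finsupp` on the subtype). `mul`: lengths are preserved (`N_I`). `quad`: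
`iota s_i = s_i`. `bar`: restricts by `V_1` (2) and semilinearity. `bar_t`: `iota g⁻¹ = (iota g)⁻¹`. `c g := c_(iota g)` is in `Hv` by `V_1` (3); `c_sub`: coordinates in `Hv` are coordinates in `H`. -/
def V_2 : Prop := ∀ (I V W H : Type) [Group W] [Ring H] [Algebra ℤ[T;T⁻¹] H] (M : CoxeterMatrix I)
    (cs : CoxeterSystem M W) (L : W → ℕ), IsWeight cs L → ∀ (π : I → V) (Γ : SimpleGraph V), IsGraphProd M π Γ →
  ∀ (D : Hecke cs L H) (v : V), ∃ (Hv : Type) (_ : Ring Hv) (_ : Algebra ℤ[T;T⁻¹] Hv)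
    (Dv : Hecke (sub M π v).toCoxeterSystem (fun g => L (iota cs π v g)) Hv) (j : Hv →ₐ[ℤ[T;T⁻¹]] H),
    Function.Injective j ∧ (∀ g, j (Dv.t g) = D.t (iota cs π v g)) ∧ ∀ g, j (Dv.c g) = D.c (iota cs π v g)

/-- PACKET RA-V3 (2.5 h). From `V_1`, `V_2`, `N_I`, `H_2`, `H_3`. The vertex data from `GoodSys`.

PROOF. `V_2` gives `Dv`, `j`; `GoodSys` gives `(B)` with `N`, and `hv, a` with `Good Dv hv a`. Applying `j` to `c_g c_(g') = ∑ hv_(g,g',l) c_l` and uniqueness of `h` (`H_3`): `h (ι g) (ι g') (ι l) = hv g g' l`, `ι = iota cs π v` injective. `D.t.repr (D.c (ι g)) (ι y) = Dv.t.repr (Dv.c g) y`, same for products of `t`.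
`a 1 = 0`: `p1` for `z = 1`: `c_1 = 1 = T_1`, `deg 1 ≤ -a(1)`. `a g ≤ N`: `H_3` (B) for `Dv`: `deg hv ≤ N`, and `IsA` has `x y` with `¬ DegLE (a g - 1)`. `a g > 0` for `g ≠ 1`: let `g = s g'`, `s` simple in the block, `ℓ(g) = ℓ(g') + 1`. `c_s c_(g')` has the `T_g`-coefficient `1` and all other elements of its `T`-support have length `< ℓ(g)`, or
`≤`, but the only element of length `ℓ(g)` in the support is `g` (`H_2`), so `hv s g' g = 1` (the `c`-coordinate at an element of maximal length in the `T`-support is the `T`-coordinate), and `p4`: `a g ≥ a s`. `c_s^2 = dl(L s) c_s` (`H_2`): `hv s s s` has degree exactly `L(s) ≥ 1`, so `a s ≥ L(s) ≥ 1`.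
`low`: `IsA`: some `x y` with `DegLE (a l) (hv x y l)` and not `DegLE (a l - 1)`: the coefficient of `v^(a l)` is `≠ 0` (`degLE_sub_one`). -/
def V_3 : Prop := ∀ (I V W H : Type) [Group W] [Ring H] [Algebra ℤ[T;T⁻¹] H] (M : CoxeterMatrix I)
    (cs : CoxeterSystem M W) (L : W → ℕ), IsWeight cs L → ∀ (π : I → V) (Γ : SimpleGraph V), IsGraphProd M π Γ →
  ∀ (D : Hecke cs L H) (h : W → W → W →₀ ℤ[T;T⁻¹]), D.IsH h → ∀ v,
  GoodSys (sub M π v).toCoxeterSystem (fun g => L (iota cs π v g)) →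
  ∃ (a : (sub M π v).Group → ℕ) (N : ℕ), a 1 = 0 ∧ (∀ g, g ≠ 1 → 0 < a g) ∧ (∀ g, a g ≤ N) ∧
    (∀ g g' k, DegLE N (D.t.repr (D.t (iota cs π v g) * D.t (iota cs π v g')) k)) ∧
    (∀ g, DegLE (-(a g : ℤ)) (D.t.repr (D.c (iota cs π v g)) 1)) ∧
    (∀ g g' l, DegLE (a l) (h (iota cs π v g) (iota cs π v g') (iota cs π v l))) ∧
    (∀ g g' l, h (iota cs π v g) (iota cs π v g') (iota cs π v l) ≠ 0 → a g ≤ a l ∧ a g' ≤ a l) ∧
    (∀ g g' l, (h (iota cs π v g) (iota cs π v g') (iota cs π v l)).coeff (a l) ≠ 0 → a g = a l ∧ a g' = a l) ∧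
    (∀ l, ∃ g g', (h (iota cs π v g) (iota cs π v g') (iota cs π v l)).coeff (a l) ≠ 0)

end Pool.Agent.Helper15.RA
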