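import Mathlib

/-!
# Project RA (MP_cc6379_al): the asymptotic ring `J` for graph products of Coxeter groups.
The definitions used in the statement.
-/

set_option autoImplicit false

open LaurentPolynomial

noncomputable section

namespace Pool.Agent.Helper15.RA

/-- `p ∈ v^k ℤ[v⁻¹]`, i.e. the degree of the Laurent polynomial `p` is at most `k` (`v = T 1`). -/
def DegLE (k : ℤ) (p : ℤ[T;T⁻¹]) : Prop := ∀ n : ℤ, k < n → p.coeff n = 0

/-! ## The setting of the problem -/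

section setting

variable {I W : Type} [Group W] {M : CoxeterMatrix I}

/-- Weight functions. -/
structure IsWeight (cs : CoxeterSystem M W) (L : W → ℕ) : Prop where
  pos : ∀ w, w ≠ 1 → 0 < L w
  add : ∀ w w', cs.length (w * w') = cs.length w + cs.length w' → L (w * w') = L w + L w'

/-- The Iwahori-Hecke algebra `H` of `(W, L)` over `ℤ[v, v⁻¹]` with its basis `T_w` (here `t w`). -/
structure Hecke0 (cs : CoxeterSystem M W) (L : W → ℕ) (H : Type) [Ring H] [Algebra ℤ[T;T⁻¹] H] where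
  /-- the basis `T_w` -/
  t : Module.Basis W ℤ[T;T⁻¹] H
  mul : ∀ w w', cs.length (w * w') = cs.length w + cs.length w' → t w * t w' = t (w * w')
  quad : ∀ i, (t (cs.simple i) + (T (-(L (cs.simple i) : ℤ)) : ℤ[T;T⁻¹]) • 1) *
    (t (cs.simple i) - (T (L (cs.simple i) : ℤ) : ℤ[T;T⁻¹]) • 1) = 0

/-- `H` with its basis `T_w` and the bar map, the ring involution with `v^n T_w ↦ v^(-n) T_(w⁻¹)⁻¹`. -/
structure Hecke1 (cs : CoxeterSystem M W) (L : W → ℕ) (H : Type) [Ring H] [Algebra ℤ[T;T⁻¹] H] extends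
    Hecke0 cs L H where
  /-- the bar involution -/
  bar : H →+* H
  bar_bar : ∀ x, bar (bar x) = x
  bar_t : ∀ (n : ℤ) w, bar ((T n : ℤ[T;T⁻¹]) • t w) * t w⁻¹ = (T (-n) : ℤ[T;T⁻¹]) • 1 ∧
    t w⁻¹ * bar ((T n : ℤ[T;T⁻¹]) • t w) = (T (-n) : ℤ[T;T⁻¹]) • 1

/-- `H` with its basis `T_w`, the bar map and the elements `c_w`, `bar c_w = c_w`, `c_w - T_w ∈ v⁻¹ H_(≤ 0)`. -/
structure Hecke (cs : CoxeterSystem M W) (L : W → ℕ) (H : Type) [Ring H] [Algebra ℤ[T;T⁻¹] H] extends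
    Hecke1 cs L H where
  /-- the elements `c_w` -/
  c : W → H
  bar_c : ∀ w, bar (c w) = c w
  c_sub : ∀ w y, DegLE (-1) (t.repr (c w - t w) y)

variable {cs : CoxeterSystem M W} {L : W → ℕ} {H : Type} [Ring H] [Algebra ℤ[T;T⁻¹] H]

/-- `h x y z = h_(x,y,z)`: `c_x c_y = ∑_z h_(x,y,z) c_z`. -/
def Hecke.IsH (D : Hecke cs L H) (h : W → W → W →₀ ℤ[T;T⁻¹]) : Prop :=
  ∀ x y, D.c x * D.c y = (h x y).sum fun z p => p • D.c z

/-- The boundedness hypothesis (B). -/
def Hecke.Bdd (D : Hecke cs L H) : Prop := ∃ N : ℕ, ∀ x y z, DegLE N (D.t.repr (D.t x * D.t y) z)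

/-- `a` is the function `a` of the problem. -/
def IsA (h : W → W → W →₀ ℤ[T;T⁻¹]) (a : W → ℕ) : Prop :=
  ∀ z, (∀ x y, DegLE (a z) (h x y z)) ∧ ∃ x y, ¬ DegLE ((a z : ℤ) - 1) (h x y z)

/-- `gam h a x y z = γ_(x,y,z⁻¹)`, the coefficient of `v^(a(z))` in `h_(x,y,z)`. -/
def gam (h : W → W → W →₀ ℤ[T;T⁻¹]) (a : W → ℕ) (x y z : W) : ℤ := (h x y z).coeff (a z)

/-- The product of `J`, the free abelian group with basis `t_w`: `t_x t_y = ∑_z γ_(x,y,z⁻¹) t_z`. -/
def jmul (h : W → W → W →₀ ℤ[T;T⁻¹]) (a : W → ℕ) (p q : W →₀ ℤ) : W →₀ ℤ :=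
  p.sum fun x m => q.sum fun y n => ∑ z ∈ (h x y).support, Finsupp.single z (m * n * gam h a x y z)

/-- The product of `J` is associative. -/
def JAssoc (h : W → W → W →₀ ℤ[T;T⁻¹]) (a : W → ℕ) : Prop :=
  ∀ p q r : W →₀ ℤ, jmul h a (jmul h a p q) r = jmul h a p (jmul h a q r)

/-- The properties P1, P4 and (a weak form of) P8 of Lusztig. -/
structure Good (D : Hecke cs L H) (h : W → W → W →₀ ℤ[T;T⁻¹]) (a : W → ℕ) : Prop where
  isH : D.IsH h
  isA : IsA h a
  p1 : ∀ z, DegLE (-(a z : ℤ)) (D.t.repr (D.c z) 1)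
  p4 : ∀ x y z, h x y z ≠ 0 → a x ≤ a z ∧ a y ≤ a z
  p8 : ∀ x y z, gam h a x y z ≠ 0 → a x = a z ∧ a y = a z

/-- `(W, L)` satisfies (B), P1, P4 and P8. -/
def GoodSys (cs : CoxeterSystem M W) (L : W → ℕ) : Prop :=
  ∀ (H : Type) [Ring H] [Algebra ℤ[T;T⁻¹] H] (D : Hecke cs L H), D.Bdd ∧ ∃ h a, Good D h a

end setting

/-! ## Graph products -/

section graph

variable {I V : Type}

/-- The Coxeter matrix of the block `π⁻¹(v)`. -/
def sub (M : CoxeterMatrix I) (π : I → V) (v : V) : CoxeterMatrix {i // π i = v} where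
  M := M.M.submatrix Subtype.val Subtype.val
  isSymm := M.isSymm.submatrix _
  diagonal i := M.diagonal i.1
  off_diagonal i j hij := M.off_diagonal i.1 j.1 fun h => hij (Subtype.ext h)

/-- Between different blocks all `m_ij` are `2` if the blocks are adjacent and infinite (`0` in Mathlib)
otherwise. -/
def IsGraphProd (M : CoxeterMatrix I) (π : I → V) (Γ : SimpleGraph V) : Prop :=
  ∀ i j, π i ≠ π j → (Γ.Adj (π i) (π j) → M i j = 2) ∧ (¬ Γ.Adj (π i) (π j) → M i j = 0)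

variable {W : Type} [Group W] {M : CoxeterMatrix I}

theorem liftable (cs : CoxeterSystem M W) (π : I → V) (v : V) :
    (sub M π v).IsLiftable (fun i : {i // π i = v} => cs.simple i.1) :=
  fun i j => cs.simple_mul_simple_pow i.1 j.1

/-- The homomorphism from the Coxeter group of the block of `v` to `W`. -/
def iota (cs : CoxeterSystem M W) (π : I → V) (v : V) : (sub M π v).Group →* W :=
  (sub M π v).toCoxeterSystem.lift ⟨fun i => cs.simple i.1, liftable cs π v⟩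

end graph

end Pool.Agent.Helper15.RA
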